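import Mathlib

/-!
Circuits with AND and OR gates of unbounded fan-in and arbitrary gates of small fan-in.
-/

set_option autoImplicit false

namespace Pool.Agent.Y603.MS

/-- A circuit with `n` input bits. `val v x` is the bit at the node `v` if the input is `x`. An
element `(u, b)` of a set `J` of wires is a wire from the node `u`, and it is true if the bit at `u`
is `b` (so negations are free). Every node which is not in `leak` is an input bit, or a gate of one
of the following kinds: an arbitrary gate with at most `w` wires (its value is a function of the set
of its true wires), an AND gate, an OR gate. The depth grows along the wires. The nodes in `leak` may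
compute arbitrary functions of the input. -/
structure Circuit (w n : ℕ) where
  Node : Type
  [finite : Finite Node]
  val : Node → (Fin n → Bool) → Bool
  depth : Node → ℕ
  leak : Finset Node
  rule : ∀ v : Node, v ∈ leak ∨ (∃ i, ∀ x, val v x = x i) ∨
    ∃ J : Finset (Node × Bool), (∀ u ∈ J, depth u.1 < depth v) ∧
      ((J.card ≤ w ∧ ∃ F : Finset (Node × Bool) → Bool,
          ∀ x, val v x = F (J.filter fun u => val u.1 x = u.2)) ∨
        (∀ x, val v x = decide (∀ u ∈ J, val u.1 x = u.2)) ∨
        (∀ x, val v x = decide (∃ u ∈ J, val u.1 x = u.2)))

/-- The number with the binary digits `x`. -/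
def value {n : ℕ} (x : Fin n → Bool) : ℕ := ∑ i, if x i = true then 2 ^ (i : ℕ) else 0

/-- The last `n` binary digits of `m`. -/
def bits (n m : ℕ) : Fin n → Bool := fun i => m.testBit i

/-- The circuit `C`, applied to the product `x y`, finds two numbers below `2 ^ n` with this
product. -/
def Factors {w n : ℕ} (C : Circuit w (n + n)) (out₁ out₂ : Fin n → C.Node) (x y : ℕ) : Prop :=
  value (fun i => C.val (out₁ i) (bits (n + n) (x * y))) *
    value (fun i => C.val (out₂ i) (bits (n + n) (x * y))) = x * y

end Pool.Agent.Y603.MS
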