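import Pool.Agent.Y603.MS.Multi2
import Pool.Agent.Y603.MS.Defs

/-!
# Circuits of constant depth under random restrictions
-/

set_option autoImplicit false

namespace Pool.Agent.Y603.MS

open Finset H568R2 Pool.Agent.TH163.AC3

lemma exists_rec {ν α : Type} (dep : ν → ℕ) (St : ν → (ν → α) → α) (d : α) :
    ∃ P : ν → α, ∀ i, P i = St i (fun j => if dep j < dep i then P j else d) := by
  classical
  let wf : WellFounded (fun a b : ν => dep a < dep b) := (measure dep).wf
  let P : ν → α := wf.fix fun i prev => St i (fun j => if h : dep j < dep i then prev j h else d)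
  refine ⟨P, fun i => ?_⟩
  have h := wf.fix_eq (C := fun _ => α)
    (fun i prev => St i (fun j => if h : dep j < dep i then prev j h else d)) i
  show P i = _
  rw [show P i = wf.fix (C := fun _ => α)
    (fun i prev => St i (fun j => if h : dep j < dep i then prev j h else d)) i from rfl, h]
  congr 1

variable {w n : ℕ}

/-- The shape of the functions at the nodes. -/
def Shape (C : Circuit w n) (g : C.Node → (Fin n → Bool) → Bool) (v : C.Node) : Prop :=
  (∃ b, ∀ x, g v x = b) ∨ (∃ i, ∀ x, g v x = x i) ∨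
    ∃ J : Finset (C.Node × Bool), (∀ u ∈ J, C.depth u.1 < C.depth v) ∧
      ((J.card ≤ w ∧ ∃ F : Finset (C.Node × Bool) → Bool,
          ∀ x, g v x = F (J.filter fun u => g u.1 x = u.2)) ∨
        (∀ x, g v x = decide (∀ u ∈ J, g u.1 x = u.2)) ∨
        (∀ x, g v x = decide (∃ u ∈ J, g u.1 x = u.2)))

/-- The circuit in which the values of the nodes in `leak` are fixed. -/
lemma unleak (C : Circuit w n) (al : C.Node → Bool) :
    ∃ g : C.Node → (Fin n → Bool) → Bool,
      (∀ x, (∀ v ∈ C.leak, C.val v x = al v) → ∀ v, g v x = C.val v x) ∧ ∀ v, Shape C g v := by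
  classical
  have hSt : ∀ v : C.Node, ∃ St : (C.Node → (Fin n → Bool) → Bool) → (Fin n → Bool) → Bool,
      (∀ p x, (∀ u ∈ C.leak, C.val u x = al u) →
        (∀ u, C.depth u < C.depth v → p u x = C.val u x) → St p x = C.val v x) ∧
      (∀ p : C.Node → (Fin n → Bool) → Bool,
        (∀ x, p v x = St (fun u => if C.depth u < C.depth v then p u else fun _ => false) x) →
        Shape C p v) := by
    intro v
    rcases C.rule v with hv | ⟨i, hi⟩ | ⟨J, hJ, ⟨hw, F, hF⟩ | h | h⟩
    · exact ⟨fun _ _ => al v, fun p x hx _ => (hx v hv).symm, fun p hp => Or.inl ⟨al v, hp⟩⟩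
    · exact ⟨fun _ x => x i, fun p x _ _ => (hi x).symm, fun p hp => Or.inr (Or.inl ⟨i, hp⟩)⟩
    · refine ⟨fun p x => F (J.filter fun u => p u.1 x = u.2), fun p x _ hp => ?_, fun p hp => ?_⟩
      · have e : (J.filter fun u => p u.1 x = u.2) = J.filter fun u => C.val u.1 x = u.2 :=
          Finset.filter_congr fun u hu => by rw [hp u.1 (hJ u hu)]
        rw [hF, ← e]
      · refine Or.inr (Or.inr ⟨J, hJ, Or.inl ⟨hw, F, fun x => ?_⟩⟩)
        have e : (J.filter fun u => (fun u => if C.depth u < C.depth v then p u else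
            fun _ => false) u.1 x = u.2) = J.filter fun u => p u.1 x = u.2 :=
          Finset.filter_congr fun u hu => by simp only [hJ u hu, if_true]
        rw [hp x, ← e]
    · refine ⟨fun p x => decide (∀ u ∈ J, p u.1 x = u.2), fun p x _ hp => ?_, fun p hp => ?_⟩
      · rw [h]
        refine decide_eq_decide.2 (forall₂_congr fun u hu => ?_)
        rw [hp u.1 (hJ u hu)]
      · refine Or.inr (Or.inr ⟨J, hJ, Or.inr (Or.inl fun x => ?_)⟩)
        rw [hp x]
        refine decide_eq_decide.2 (forall₂_congr fun u hu => ?_)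
        simp only [hJ u hu, if_true]
    · refine ⟨fun p x => decide (∃ u ∈ J, p u.1 x = u.2), fun p x _ hp => ?_, fun p hp => ?_⟩
      · rw [h]
        refine decide_eq_decide.2 (exists_congr fun u => and_congr_right fun hu => ?_)
        rw [hp u.1 (hJ u hu)]
      · refine Or.inr (Or.inr ⟨J, hJ, Or.inr (Or.inr fun x => ?_)⟩)
        rw [hp x]
        refine decide_eq_decide.2 (exists_congr fun u => and_congr_right fun hu => ?_)
        simp only [hJ u hu, if_true]
  choose St h1 h2 using hSt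
  obtain ⟨g, hg⟩ := exists_rec C.depth St (fun _ => false)
  refine ⟨g, fun x hx v => ?_, fun v => h2 v g fun x => by rw [← hg v]⟩
  induction hd : C.depth v using Nat.strong_induction_on generalizing v with
  | _ d ih =>
    rw [hg v]
    refine h1 v _ x hx fun u hu => ?_
    rw [if_pos hu]
    exact ih (C.depth u) (by omega) u rfl

lemma HasDT.pt {s : ℕ} {f : (Fin n → Bool) → Bool} (h : HasDT s f) (x : Fin n → Bool) :
    ∃ A : Finset (Fin n), A.card ≤ s ∧ ∀ y, (∀ i ∈ A, y i = x i) → f y = f x := by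
  obtain ⟨t, ht, he⟩ := h
  exact ⟨t.reads x, (t.card_reads x).trans ht, fun y hy => by
    rw [← he y, (t.congr x y hy).1, he x]⟩

/-- Inputs have shallow trees. -/
lemma input_dt {ℓ : ℕ} (hℓ : 1 ≤ ℓ) (ρ : Restr (Fin n)) (i : Fin n) :
    HasDT ℓ (rs (fun x => x i) ρ) := by
  cases hρ : ρ i with
  | none =>
    refine ⟨TH163.AC3.Tree.node i (TH163.AC3.Tree.leaf false) (TH163.AC3.Tree.leaf true), ?_, ?_⟩
    · unfold TH163.AC3.Tree.depth
      simp only [TH163.AC3.Tree.depth]
      omega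
    · intro x
      have h1 : rs (fun x : Fin n → Bool => x i) ρ x = x i := by
        show ov ρ x i = x i
        unfold ov
        rw [hρ]
        rfl
      rw [h1]
      unfold TH163.AC3.Tree.eval
      rcases hx : x i with _ | _
      · simp [TH163.AC3.Tree.eval]
      · simp [TH163.AC3.Tree.eval]
  | some b =>
    apply hasDT_const b
    intro x
    show ov ρ x i = b
    unfold ov
    rw [hρ]
    rfl

lemma Cert.mono {I : Type} {K K' : ℕ} {b : Bool} {f : (I → Bool) → Bool} (h : Cert K b f)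
    (hK : K ≤ K') : Cert K' b f := by
  intro x hx
  obtain ⟨A, hA, hy⟩ := h x hx
  exact ⟨A, hA.trans hK, hy⟩

lemma shape_cert {C : Circuit w n} {g : C.Node → (Fin n → Bool) → Bool} {v : C.Node}
    (h : Shape C g v) {ℓ : ℕ} (hℓ : 1 ≤ ℓ) (hw : 1 ≤ w) {ρ : Restr (Fin n)}
    (hρ : ∀ u, C.depth u < C.depth v → HasDT ℓ (rs (g u) ρ)) :
    ∃ b, Cert (w * ℓ) b (rs (g v) ρ) := by
  classical
  have hlw : ℓ ≤ w * ℓ := Nat.le_mul_of_pos_left _ hw
  rcases h with ⟨b, hb⟩ | ⟨i, hi⟩ | ⟨J, hJ, ⟨hJw, F, hF⟩ | hF | hF⟩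
  · exact ⟨b, fun x _ => ⟨∅, by simp, fun y _ => hb _⟩⟩
  · refine ⟨true, Cert.mono (HasDT.cert ?_ true) hlw⟩
    have : g v = fun x => x i := funext hi
    rw [this]
    exact input_dt hℓ ρ i
  · refine ⟨true, fun x hx => ?_⟩
    have h1 : ∀ u : C.Node × Bool, ∃ A : Finset (Fin n), A.card ≤ ℓ ∧
        (u ∈ J → ∀ y, (∀ i ∈ A, y i = x i) → rs (g u.1) ρ y = rs (g u.1) ρ x) := by
      intro u
      by_cases hu : u ∈ J
      · obtain ⟨A, hA1, hA2⟩ := HasDT.pt (hρ u.1 (hJ u hu)) x
        exact ⟨A, hA1, fun _ => hA2⟩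
      · exact ⟨∅, by simp, fun h => absurd h hu⟩
    choose A hA1 hA2 using h1
    refine ⟨J.biUnion A, ?_, fun y hy => ?_⟩
    · refine Finset.card_biUnion_le.trans ?_
      refine (Finset.sum_le_card_nsmul _ _ _ fun u _ => hA1 u).trans ?_
      rw [smul_eq_mul]
      exact Nat.mul_le_mul_right _ hJw
    · rw [← hx]
      unfold rs
      rw [hF, hF]
      congr 1
      refine Finset.filter_congr fun u hu => ?_
      have := hA2 u hu y fun i hi => hy i (Finset.mem_biUnion.2 ⟨u, hu, hi⟩)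
      unfold rs at this
      rw [this]
  · refine ⟨false, fun x hx => ?_⟩
    unfold rs at hx
    rw [hF, decide_eq_false_iff_not] at hx
    push Not at hx
    obtain ⟨u, hu, hux⟩ := hx
    obtain ⟨A, hA1, hA2⟩ := HasDT.pt (hρ u.1 (hJ u hu)) x
    refine ⟨A, hA1.trans hlw, fun y hy => ?_⟩
    unfold rs
    rw [hF, decide_eq_false_iff_not]
    intro hall
    apply hux
    have h3 := hA2 y hy
    unfold rs at h3
    rw [← h3]
    exact hall u hu
  · refine ⟨true, fun x hx => ?_⟩
    unfold rs at hx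
    rw [hF, decide_eq_true_iff] at hx
    obtain ⟨u, hu, hux⟩ := hx
    obtain ⟨A, hA1, hA2⟩ := HasDT.pt (hρ u.1 (hJ u hu)) x
    refine ⟨A, hA1.trans hlw, fun y hy => ?_⟩
    unfold rs
    rw [hF, decide_eq_true_iff]
    have h3 := hA2 y hy
    unfold rs at h3
    exact ⟨u, hu, h3.trans hux⟩

lemma shape_zero {C : Circuit w n} {g : C.Node → (Fin n → Bool) → Bool} {v : C.Node}
    (h : Shape C g v) (hv : C.depth v = 0) {ℓ : ℕ} (hℓ : 1 ≤ ℓ) (ρ : Restr (Fin n)) :
    HasDT ℓ (rs (g v) ρ) := by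
  classical
  rcases h with ⟨b, hb⟩ | ⟨i, hi⟩ | ⟨J, hJ, h⟩
  · exact hasDT_const b (fun x => hb _) ℓ
  · have : g v = fun x => x i := funext hi
    rw [this]
    exact input_dt hℓ ρ i
  · have hJe : J = ∅ := by
      rw [Finset.eq_empty_iff_forall_notMem]
      intro u hu
      have := hJ u hu
      omega
    subst hJe
    rcases h with ⟨_, F, hF⟩ | hF | hF
    · refine hasDT_const (F ∅) (fun x => ?_) ℓ
      show g v _ = _
      rw [hF, Finset.filter_empty]
    · refine hasDT_const true (fun x => ?_) ℓ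
      show g v _ = _
      rw [hF]; simp
    · refine hasDT_const false (fun x => ?_) ℓ
      show g v _ = _
      rw [hF]; simp

open Classical in
/-- All the nodes of depth at most `j` under a random restriction. -/
theorem levels (C : Circuit w n) (g : C.Node → (Fin n → Bool) → Bool) (hg : ∀ v, Shape C g v)
    {ℓ : ℕ} (hℓ : 1 ≤ ℓ) (hw : 1 ≤ w) (hs : Nat.card C.Node ≤ 2 ^ ℓ) {q : ℝ} (h0 : 0 ≤ q)
    (h1 : q ≤ 1 / 3) (h2 : 96 * (w * ℓ : ℕ) * q ≤ 1 / 2) {t : ℕ} (ht : 1 ≤ t) (j : ℕ) :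
    Ex (wq (q ^ j)) (fun ρ : Restr (Fin n) => if ¬ Dt (fun ρ' => ∀ v, C.depth v ≤ j →
      HasDT ℓ (rs (g v) ρ')) (j * t) ρ then (1 : ℝ) else 0) ≤
      2 ^ (j * t) * (2 * (96 * (w * ℓ : ℕ) * q) ^ (t + 1)) := by
  have := C.finite
  let _ : Fintype C.Node := Fintype.ofFinite _
  set δ : ℝ := 2 * (96 * (w * ℓ : ℕ) * q) ^ (t + 1) with hδ
  have hδ0 : 0 ≤ δ := by positivity
  induction j with
  | zero =>
    have hgood : ∀ ρ : Restr (Fin n), Dt (fun ρ' => ∀ v, C.depth v ≤ 0 →
        HasDT ℓ (rs (g v) ρ')) (0 * t) ρ := fun ρ =>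
      Dt.leaf _ _ fun v hv => shape_zero (hg v) (by omega) hℓ ρ
    have : ∀ ρ : Restr (Fin n), (if ¬ Dt (fun ρ' => ∀ v, C.depth v ≤ 0 →
        HasDT ℓ (rs (g v) ρ')) (0 * t) ρ then (1 : ℝ) else 0) = 0 := fun ρ => by
      rw [if_neg (not_not.2 (hgood ρ))]
    simp only [this]
    unfold Ex
    simp only [mul_zero, Finset.sum_const_zero]
    positivity
  | succ j ih =>
    rw [pow_succ q j, wq_cmp]
    have hwj : ∀ a, 0 ≤ wq (q ^ j) a :=
      wq_nonneg (pow_nonneg h0 j) (pow_le_one₀ h0 (by linarith))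
    have hw1 : ∀ a, 0 ≤ wq q a := wq_nonneg h0 (by linarith)
    have hstep : ∀ ρ : Restr (Fin n), (∀ v, C.depth v ≤ j → HasDT ℓ (rs (g v) ρ)) →
        Ex (wq q) (fun τ : Restr (Fin n) => if ¬ Dt (fun ρ' => ∀ v, C.depth v ≤ j + 1 →
          HasDT ℓ (rs (g v) ρ')) t (cmp ρ τ) then (1 : ℝ) else 0) ≤ δ := by
      intro ρ hρ
      have hms := multi_switching (ι := {v : C.Node // C.depth v ≤ j + 1}) (k := w * ℓ) (ℓ := ℓ)
        (F := fun v => rs (g v.1) ρ) (fun v => shape_cert (hg v.1) hℓ hw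
          (fun u hu => hρ u (by have := v.2; omega))) (by
            refine (Fintype.card_subtype_le _).trans ?_
            rwa [← Nat.card_eq_fintype_card]) h0 h1 h2 t
      refine le_trans (Ex_mono hw1 fun τ => ?_) hms
      by_cases hd : Dt (fun ρ' => ∀ v : {v : C.Node // C.depth v ≤ j + 1},
          HasDT ℓ (rs (rs (g v.1) ρ) ρ')) t τ
      · have : Dt (fun ρ' => ∀ v, C.depth v ≤ j + 1 → HasDT ℓ (rs (g v) ρ')) t (cmp ρ τ) := by
          refine Dt.cmp_right ρ (fun τ' h v hv => ?_) hd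
          have := h ⟨v, hv⟩
          rwa [← rs_cmp] at this
        rw [if_neg (not_not.2 this)]
        split_ifs <;> norm_num
      · rw [if_pos hd]
        split_ifs <;> norm_num
    have hin : ∀ ρ : Restr (Fin n), Ex (wq q) (fun τ : Restr (Fin n) =>
        if ¬ Dt (fun ρ' => ∀ v, C.depth v ≤ j + 1 → HasDT ℓ (rs (g v) ρ')) ((j + 1) * t) (cmp ρ τ)
          then (1 : ℝ) else 0) ≤
        (if ¬ Dt (fun ρ' => ∀ v, C.depth v ≤ j → HasDT ℓ (rs (g v) ρ')) (j * t) ρ then (1 : ℝ)
          else 0) + 2 ^ (j * t) * δ := by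
      intro ρ
      by_cases hG : Dt (fun ρ' => ∀ v, C.depth v ≤ j → HasDT ℓ (rs (g v) ρ')) (j * t) ρ
      · rw [if_neg (not_not.2 hG), zero_add, show (j + 1) * t = j * t + t by ring]
        exact Ex_leaves h0 (by linarith) hδ0 hstep hG
      · rw [if_pos hG]
        have h3 : Ex (wq q) (fun τ : Restr (Fin n) => if ¬ Dt (fun ρ' => ∀ v, C.depth v ≤ j + 1 →
            HasDT ℓ (rs (g v) ρ')) ((j + 1) * t) (cmp ρ τ) then (1 : ℝ) else 0) ≤
            Ex (wq q) (fun _ : Restr (Fin n) => (1 : ℝ)) := by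
          apply Ex_mono hw1
          intro τ
          split_ifs <;> norm_num
        rw [Ex_const (wq_sum q)] at h3
        have : 0 ≤ 2 ^ (j * t) * δ := by positivity
        linarith
    refine (Ex_mono hwj hin).trans ?_
    rw [Ex_add, Ex_const (wq_sum (q ^ j))]
    have h4 : (2 : ℝ) ^ ((j + 1) * t) * δ = 2 ^ t * (2 ^ (j * t) * δ) := by
      rw [show (j + 1) * t = t + j * t by ring, pow_add]; ring
    have h5 : (2 : ℝ) ≤ 2 ^ t := by
      calc (2 : ℝ) = 2 ^ 1 := by norm_num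
        _ ≤ 2 ^ t := pow_le_pow_right₀ (by norm_num) ht
    have h6 : 0 ≤ 2 ^ (j * t) * δ := by positivity
    rw [h4]
    nlinarith

/-- The tree at a point of the subcube. -/
lemma Dt.point {I : Type} [DecidableEq I] {Q : Restr I → Prop} {t : ℕ} {ρ : Restr I}
    (h : Dt Q t ρ) : ∀ x : I → Bool, (∀ i b, ρ i = some b → x i = b) →
      ∃ A : Finset I, A.card ≤ t ∧ Q (setOn ρ A x) := by
  induction h with
  | leaf t ρ hQ =>
    intro x _
    refine ⟨∅, by simp, ?_⟩
    have : setOn ρ ∅ x = ρ := by funext i; simp [setOn]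
    rwa [this]
  | node t ρ i _ ih =>
    intro x hx
    obtain ⟨A, hA1, hA2⟩ := ih (x i) x (by
      intro j b hj
      by_cases hji : j = i
      · subst hji
        simpa using hj
      · rw [Function.update_of_ne hji] at hj
        exact hx j b hj)
    refine ⟨insert i A, (Finset.card_insert_le _ _).trans (by omega), ?_⟩
    rw [setOn_insert]
    exact hA2

/-- The bits that are read at a point. -/
lemma reads_point {ν : Type} {g : ν → (Fin n → Bool) → Bool} {ℓ t : ℕ} {ρ : Restr (Fin n)}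
    (h : Dt (fun ρ' => ∀ v, HasDT ℓ (rs (g v) ρ')) t ρ) (x : Fin n → Bool)
    (hx : ∀ i b, ρ i = some b → x i = b) :
    ∃ (A : Finset (Fin n)) (R : ν → Finset (Fin n)), A.card ≤ t ∧ (∀ v, (R v).card ≤ ℓ) ∧
      ∀ v y, (∀ i b, ρ i = some b → y i = b) → (∀ i ∈ A, y i = x i) → (∀ i ∈ R v, y i = x i) →
        g v y = g v x := by
  obtain ⟨A, hA, hQ⟩ := Dt.point h x hx
  have h1 : ∀ v, ∃ R : Finset (Fin n), R.card ≤ ℓ ∧ ∀ y, (∀ i ∈ R, y i = x i) →
      rs (g v) (setOn ρ A x) y = rs (g v) (setOn ρ A x) x := fun v => HasDT.pt (hQ v) x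
  choose R hR1 hR2 using h1
  refine ⟨A, R, hA, hR1, fun v y hy hyA hyR => ?_⟩
  have e : ∀ z : Fin n → Bool, (∀ i b, ρ i = some b → z i = b) → (∀ i ∈ A, z i = x i) →
      ov (setOn ρ A x) z = z := by
    intro z hz hzA
    funext i
    unfold ov setOn
    by_cases hi : i ∈ A
    · rw [if_pos hi, hzA i hi]; rfl
    · rw [if_neg hi]
      cases hρ : ρ i with
      | none => rfl
      | some b => rw [hz i b hρ]; rfl
  have h2 := hR2 v y hyR
  unfold rs at h2
  rwa [e y hy hyA, e x hx fun i _ => rfl] at h2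

end Pool.Agent.Y603.MS
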