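import Pool.Agent.Y603.MS.Pack

/-!
# Circuits of constant depth have close values at close points of large sets
-/

set_option autoImplicit false

namespace Pool.Agent.Y603.MS

open Finset H568R2 Pool.Agent.TH163.AC3

variable {w N : ℕ}

lemma level_num (d t K : ℕ) (q : ℝ) (hK : 0 < K) (hq : q = 1 / (2 ^ (d + 9) * K)) :
    0 ≤ q ∧ q ≤ 1 / 3 ∧ 96 * (K : ℝ) * q ≤ 1 / 2 ∧
      (2 : ℝ) ^ (d * t) * (2 * (96 * (K : ℝ) * q) ^ (t + 1)) ≤ (1 / 2) ^ (2 * t + d + 1) := by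
  have hK' : (1 : ℝ) ≤ K := by exact_mod_cast hK
  have h2 : (0 : ℝ) < 2 ^ d := by positivity
  have h3 : (1 : ℝ) ≤ 2 ^ d := one_le_pow₀ (by norm_num)
  have hx : 96 * (K : ℝ) * q = 96 / (2 ^ d * 512) := by
    rw [hq, pow_add]; field_simp; norm_num
  have hx2 : 96 * (K : ℝ) * q ≤ (1 / 2) ^ (d + 2) := by
    rw [hx, pow_add, one_div, inv_pow, div_le_iff₀ (by positivity)]
    have : ((2 : ℝ) ^ d)⁻¹ * 2⁻¹ ^ 2 * (2 ^ d * 512) = 128 := by field_simp; norm_num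
    rw [this]; norm_num
  have hx0 : 0 ≤ 96 * (K : ℝ) * q := by rw [hx]; positivity
  refine ⟨by rw [hq]; positivity, ?_, ?_, ?_⟩
  · rw [hq, one_div, one_div]
    apply inv_anti₀ (by norm_num)
    rw [pow_add]
    nlinarith
  · refine hx2.trans ?_
    calc ((1 : ℝ) / 2) ^ (d + 2) ≤ (1 / 2) ^ 1 :=
          pow_le_pow_of_le_one (by norm_num) (by norm_num) (by omega)
      _ = 1 / 2 := pow_one _
  · calc (2 : ℝ) ^ (d * t) * (2 * (96 * (K : ℝ) * q) ^ (t + 1))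
        ≤ 2 ^ (d * t) * (2 * ((1 / 2) ^ (d + 2)) ^ (t + 1)) := by
          refine mul_le_mul_of_nonneg_left (mul_le_mul_of_nonneg_left
            (pow_le_pow_left₀ hx0 hx2 _) (by norm_num)) (by positivity)
      _ = 2 ^ (d * t + 1) * (1 / 2) ^ ((d * t + 1) + (2 * t + d + 1)) := by
          rw [← pow_mul, pow_succ (2 : ℝ) (d * t)]
          rw [show (d + 2) * (t + 1) = d * t + 1 + (2 * t + d + 1) by ring]
          ring
      _ = (1 / 2) ^ (2 * t + d + 1) := by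
          rw [pow_add (1 / 2 : ℝ), ← mul_assoc, ← mul_pow]
          norm_num

lemma free_num (K N r : ℕ) (hK : 0 < K) (hr : r ≤ N / (4 * K)) :
    (2 : ℝ) ^ (N / (4 * K)) * (1 - 1 / (K : ℝ) / 2) ^ N ≤ (1 / 2) ^ r := by
  set a := N / (4 * K) with ha
  have hK' : (1 : ℝ) ≤ K := by exact_mod_cast hK
  have h1 : (1 : ℝ) - 1 / K / 2 ≤ Real.exp (-(1 / K / 2)) := by
    have := Real.add_one_le_exp (-(1 / (K : ℝ) / 2))
    linarith
  have h0 : 0 ≤ (1 : ℝ) - 1 / K / 2 := by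
    have : 1 / (K : ℝ) ≤ 1 := by rw [div_le_one (by linarith)]; exact hK'
    linarith
  have h2 : (1 - 1 / (K : ℝ) / 2) ^ N ≤ Real.exp (-(2 * a)) := by
    calc (1 - 1 / (K : ℝ) / 2) ^ N ≤ Real.exp (-(1 / K / 2)) ^ N := pow_le_pow_left₀ h0 h1 N
      _ = Real.exp (N * (-(1 / K / 2))) := by rw [← Real.exp_nat_mul]
      _ ≤ Real.exp (-(2 * a)) := by
          apply Real.exp_le_exp.2
          have h3 : a * (4 * K) ≤ N := Nat.div_mul_le_self _ _
          have h4 : (a : ℝ) * (4 * K) ≤ N := by exact_mod_cast h3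
          have h5 : (N : ℝ) * (1 / K / 2) = N / (2 * K) := by field_simp
          have h6 : 2 * (a : ℝ) ≤ N / (2 * K) := by
            rw [le_div_iff₀ (by positivity)]
            linarith
          linarith
  have h7 : Real.exp (-(2 * a : ℝ)) ≤ (1 / 4) ^ a := by
    have h8 : Real.exp (-(2 : ℝ)) ≤ 1 / 4 := by
      have h9 : (2 : ℝ) ≤ Real.exp 1 := by
        have := Real.add_one_le_exp (1 : ℝ)
        linarith
      have h10 : (4 : ℝ) ≤ Real.exp 2 := by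
        have : Real.exp 2 = Real.exp 1 * Real.exp 1 := by rw [← Real.exp_add]; norm_num
        rw [this]; nlinarith
      rw [Real.exp_neg, ← one_div]
      exact one_div_le_one_div_of_le (by norm_num) h10
    calc Real.exp (-(2 * a : ℝ)) = Real.exp (-2) ^ a := by
          rw [← Real.exp_nat_mul]; congr 1; ring
      _ ≤ _ := pow_le_pow_left₀ (Real.exp_pos _).le h8 _
  calc (2 : ℝ) ^ a * (1 - 1 / (K : ℝ) / 2) ^ N ≤ 2 ^ a * (1 / 4) ^ a :=
        mul_le_mul_of_nonneg_left (h2.trans h7) (by positivity)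
    _ = (1 / 2) ^ a := by rw [← mul_pow]; norm_num
    _ ≤ (1 / 2) ^ r := pow_le_pow_of_le_one (by norm_num) (by norm_num) hr

open Classical in
/-- A good subcube. -/
lemma good_restr {Q : Restr (Fin N) → Prop} {p : ℝ} (h0 : 0 ≤ p) (h1 : p ≤ 1) {r a : ℕ}
    (hQ : Ex (wq p) (fun ρ : Restr (Fin N) => if ¬ Q ρ then (1 : ℝ) else 0) ≤ (1 / 2) ^ (r + 2))
    (hf : Ex (wq p) (fun ρ : Restr (Fin N) => if fr ρ ≤ a then (1 : ℝ) else 0) ≤ (1 / 2) ^ (r + 2))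
    (G : Finset (Fin N → Bool)) (hG : 2 ^ N < G.card * 2 ^ r) :
    ∃ ρ : Restr (Fin N), Q ρ ∧ a < fr ρ ∧ 2 ^ fr ρ ≤ (G.filter (InC ρ)).card * 2 ^ (r + 1) := by
  by_contra hcon
  push Not at hcon
  have hpt : ∀ ρ : Restr (Fin N), ((G.filter (InC ρ)).card : ℝ) * (1 / 2) ^ fr ρ ≤
      (if ¬ Q ρ then (1 : ℝ) else 0) + (if fr ρ ≤ a then (1 : ℝ) else 0) + (1 / 2) ^ (r + 1) := by
    intro ρ
    have hle : ((G.filter (InC ρ)).card : ℝ) * (1 / 2) ^ fr ρ ≤ 1 := by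
      have h2 : (G.filter (InC ρ)).card ≤ 2 ^ fr ρ := by
        rw [← card_inC]
        exact Finset.card_le_card (Finset.filter_subset_filter _ (Finset.subset_univ _))
      have h3 : ((G.filter (InC ρ)).card : ℝ) ≤ 2 ^ fr ρ := by exact_mod_cast h2
      calc _ ≤ (2 : ℝ) ^ fr ρ * (1 / 2) ^ fr ρ := mul_le_mul_of_nonneg_right h3 (by positivity)
        _ = 1 := by rw [← mul_pow]; norm_num
    have hp : (0 : ℝ) ≤ (1 / 2) ^ (r + 1) := by positivity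
    by_cases hq : Q ρ
    · by_cases ha : fr ρ ≤ a
      · rw [if_neg (not_not.2 hq), if_pos ha]
        linarith
      · rw [if_neg (not_not.2 hq), if_neg ha]
        have h4 := hcon ρ hq (not_le.1 ha)
        have h5 : ((G.filter (InC ρ)).card : ℝ) * 2 ^ (r + 1) ≤ 2 ^ fr ρ := by
          exact_mod_cast h4.le
        have h6 : ((G.filter (InC ρ)).card : ℝ) * (1 / 2) ^ fr ρ =
            (((G.filter (InC ρ)).card : ℝ) * 2 ^ (r + 1)) * ((1 / 2) ^ (r + 1) * (1 / 2) ^ fr ρ) := by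
          have : (2 : ℝ) ^ (r + 1) * (1 / 2) ^ (r + 1) = 1 := by rw [← mul_pow]; norm_num
          calc _ = ((G.filter (InC ρ)).card : ℝ) * (1 / 2) ^ fr ρ *
                ((2 : ℝ) ^ (r + 1) * (1 / 2) ^ (r + 1)) := by rw [this, mul_one]
            _ = _ := by ring
        rw [h6]
        calc _ ≤ (2 : ℝ) ^ fr ρ * ((1 / 2) ^ (r + 1) * (1 / 2) ^ fr ρ) :=
              mul_le_mul_of_nonneg_right h5 (by positivity)
          _ = (1 / 2) ^ (r + 1) * ((2 : ℝ) ^ fr ρ * (1 / 2) ^ fr ρ) := by ring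
          _ = (1 / 2) ^ (r + 1) := by rw [← mul_pow]; norm_num
          _ ≤ _ := by linarith
    · rw [if_pos hq]
      split_ifs <;> linarith
  have hsum := dens_avg (p := p) G
  have h2 : Ex (wq p) (fun ρ : Restr (Fin N) => ((G.filter (InC ρ)).card : ℝ) * (1 / 2) ^ fr ρ) ≤
      Ex (wq p) (fun ρ : Restr (Fin N) => (if ¬ Q ρ then (1 : ℝ) else 0) +
        (if fr ρ ≤ a then (1 : ℝ) else 0) + (1 / 2) ^ (r + 1)) :=
    Ex_mono (wq_nonneg h0 h1) hpt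
  have h3 : Ex (wq p) (fun ρ : Restr (Fin N) => ((G.filter (InC ρ)).card : ℝ) * (1 / 2) ^ fr ρ) =
      G.card * (1 / 2 : ℝ) ^ N := hsum
  rw [h3, Ex_add, Ex_add, Ex_const (wq_sum p)] at h2
  have h4 : (2 : ℝ) ^ N < G.card * 2 ^ r := by exact_mod_cast hG
  have h5 : ((1 : ℝ) / 2) ^ r < G.card * (1 / 2 : ℝ) ^ N := by
    have h6 : (0 : ℝ) < (1 / 2) ^ N * (1 / 2) ^ r := by positivity
    have h7 := mul_lt_mul_of_pos_right h4 h6
    have e1 : (2 : ℝ) ^ N * ((1 / 2) ^ N * (1 / 2) ^ r) = (1 / 2) ^ r := by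
      rw [← mul_assoc, ← mul_pow]; norm_num
    have e2 : (G.card : ℝ) * 2 ^ r * ((1 / 2) ^ N * (1 / 2) ^ r) = G.card * (1 / 2 : ℝ) ^ N := by
      have : (2 : ℝ) ^ r * (1 / 2) ^ r = 1 := by rw [← mul_pow]; norm_num
      calc _ = (G.card : ℝ) * (1 / 2 : ℝ) ^ N * ((2 : ℝ) ^ r * (1 / 2) ^ r) := by ring
        _ = _ := by rw [this, mul_one]
    rwa [e1, e2] at h7
  have h8 : ((1 : ℝ) / 2) ^ (r + 2) + (1 / 2) ^ (r + 2) + (1 / 2) ^ (r + 1) = (1 / 2) ^ r := by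
    rw [pow_add, pow_add]; ring
  linarith

/-- **Close values at close points.** -/
theorem close_pair (C : Circuit w N) (g : C.Node → (Fin N → Bool) → Bool) (hg : ∀ v, Shape C g v)
    {ℓ d r K : ℕ} (hℓ : 1 ≤ ℓ) (hw : 1 ≤ w) (hs : Nat.card C.Node ≤ 2 ^ ℓ)
    (hd : ∀ v, C.depth v ≤ d) (hK : K = (2 ^ (d + 9) * (w * ℓ)) ^ d)
    (hN : 16 * K * (d + 1) * (r + 2) ≤ N) {κ : Type} [Fintype κ] (hκ : Fintype.card κ ≤ N)
    (out : κ → C.Node) (G : Finset (Fin N → Bool)) (hG : 2 ^ N < G.card * 2 ^ r) :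
    ∃ x ∈ G, ∃ y ∈ G, x ≠ y ∧ (univ.filter fun i => x i ≠ y i).card ≤ 2 * (r + 2) ∧
      (univ.filter fun v => g (out v) x ≠ g (out v) y).card ≤ 2 * ((r + 2) * (16 * K * ℓ)) := by
  classical
  have hwl : 0 < w * ℓ := Nat.mul_pos hw hℓ
  have hK0 : 0 < K := by rw [hK]; positivity
  obtain ⟨q, hq⟩ : ∃ q : ℝ, q = 1 / (2 ^ (d + 9) * ((w * ℓ : ℕ) : ℝ)) := ⟨_, rfl⟩
  obtain ⟨q0, q1, q2, q3⟩ := level_num d (r + 1) (w * ℓ) q hwl hq
  have hqd : q ^ d = 1 / (K : ℝ) := by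
    rw [hq, hK, one_div, one_div, inv_pow]
    push_cast
    rfl
  have hlev := levels C g hg hℓ hw hs q0 q1 q2 (t := r + 1) (by omega) d
  have hQ : Ex (wq (q ^ d)) (fun ρ : Restr (Fin N) => if ¬ Dt (fun ρ' => ∀ v,
      HasDT ℓ (rs (g v) ρ')) (d * (r + 1)) ρ then (1 : ℝ) else 0) ≤ (1 / 2) ^ (r + 2) := by
    have h1 : (fun ρ' : Restr (Fin N) => ∀ v, C.depth v ≤ d → HasDT ℓ (rs (g v) ρ')) =
        fun ρ' => ∀ v, HasDT ℓ (rs (g v) ρ') := by
      funext ρ'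
      exact propext (forall_congr' fun v => ⟨fun h => h (hd v), fun h _ => h⟩)
    rw [h1] at hlev
    refine hlev.trans (q3.trans ?_)
    exact pow_le_pow_of_le_one (by norm_num) (by norm_num) (by omega)
  have ha : 4 * (d + 1) * (r + 2) ≤ N / (4 * K) := by
    rw [Nat.le_div_iff_mul_le (by omega)]
    calc 4 * (d + 1) * (r + 2) * (4 * K) = 16 * K * (d + 1) * (r + 2) := by ring
      _ ≤ N := hN
  have ha1 : r + 2 ≤ N / (4 * K) := by nlinarith
  have hf : Ex (wq (q ^ d)) (fun ρ : Restr (Fin N) => if fr ρ ≤ N / (4 * K) then (1 : ℝ) else 0) ≤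
      (1 / 2) ^ (r + 2) := by
    refine (few_free (pow_nonneg q0 d) (pow_le_one₀ q0 (by linarith)) _).trans ?_
    rw [hqd]
    exact free_num K N (r + 2) hK0 ha1
  obtain ⟨ρ, hρ1, hρ2, hρ3⟩ := good_restr (Q := Dt (fun ρ' => ∀ v, HasDT ℓ (rs (g v) ρ'))
    (d * (r + 1))) (pow_nonneg q0 d) (pow_le_one₀ q0 (by linarith)) hQ hf G hG
  have hlt : N < 4 * K * fr ρ := by
    have h1 : N / (4 * K) < fr ρ := hρ2
    rw [Nat.div_lt_iff_lt_mul (by omega)] at h1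
    rwa [mul_comm] at h1
  have hpos : 0 < 2 ^ (r + 1) := by positivity
  obtain ⟨x, hx, y, hy, hne, h1, h2⟩ := pack (fun v => g (out v)) ρ (ℓ := ℓ) (T := d * (r + 1))
    (h := 16 * K * ℓ) (R := r + 2) (fun x hx => by
      obtain ⟨A, Rd, hA, hR, hl⟩ := reads_point hρ1 x hx
      exact ⟨A, fun v => Rd (out v), hA, fun v => hR _, fun v y hy h3 h4 => hl _ y hy h3 h4⟩)
    (by nlinarith) (by
      calc 4 * (Fintype.card κ * ℓ) ≤ 4 * (N * ℓ) :=
            Nat.mul_le_mul_left _ (Nat.mul_le_mul_right _ hκ)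
        _ ≤ 4 * (4 * K * fr ρ * ℓ) := Nat.mul_le_mul_left _ (Nat.mul_le_mul_right _ hlt.le)
        _ = 16 * K * ℓ * fr ρ := by ring
        _ ≤ (16 * K * ℓ + 1) * fr ρ := Nat.mul_le_mul_right _ (Nat.le_succ _))
    (by nlinarith) (G.filter (InC ρ)) (fun x hx => (Finset.mem_filter.1 hx).2) (by
      have h5 : (G.filter (InC ρ)).card * 2 ^ (r + 2) = (G.filter (InC ρ)).card * 2 ^ (r + 1) * 2 := by
        rw [pow_succ 2 (r + 1)]; ring
      have h6 : 0 < 2 ^ fr ρ := by positivity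
      rw [h5]
      omega)
  exact ⟨x, (Finset.mem_filter.1 hx).1, y, (Finset.mem_filter.1 hy).1, hne, h1, h2⟩

end Pool.Agent.Y603.MS
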