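import Pool.Agent.TH163.AC3.Sw
import Pool.Agent.H568R2.Collapse

/-!
# Common partial decision trees
-/

set_option autoImplicit false

namespace Pool.Agent.Y603.MS

open Finset H568R2 Pool.Agent.TH163.AC3

variable {I : Type} [DecidableEq I]

/-- There is a decision tree of depth at most `t` such that all the restrictions at its leaves have
the property `Q`. -/
inductive Dt (Q : Restr I → Prop) : ℕ → Restr I → Prop
  | leaf (t : ℕ) (ρ : Restr I) : Q ρ → Dt Q t ρ
  | node (t : ℕ) (ρ : Restr I) (i : I) : (∀ b : Bool, Dt Q t (Function.update ρ i (some b))) →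
      Dt Q (t + 1) ρ

lemma Dt.mono {Q : Restr I → Prop} {t t' : ℕ} {ρ : Restr I} (h : Dt Q t ρ) (ht : t ≤ t') :
    Dt Q t' ρ := by
  induction h generalizing t' with
  | leaf t ρ hQ => exact Dt.leaf _ _ hQ
  | node t ρ i _ ih =>
    obtain ⟨u, rfl⟩ : ∃ u, t' = u + 1 := ⟨t' - 1, by omega⟩
    exact Dt.node _ _ i fun b => ih b (by omega)

lemma setOn_insert (ρ : Restr I) (A : Finset I) (i : I) (π : I → Bool) :
    setOn ρ (insert i A) π = setOn (Function.update ρ i (some (π i))) A π := by
  funext j
  unfold setOn
  by_cases hA : j ∈ A
  · simp [hA]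
  · by_cases hj : j = i
    · subst hj
      simp [hA]
    · simp [hA, hj]

/-- Querying the variables of a set. -/
lemma Dt.query {Q : Restr I → Prop} {t : ℕ} (A : Finset I) : ∀ ρ : Restr I,
    (∀ π : I → Bool, Dt Q t (setOn ρ A π)) → Dt Q (A.card + t) ρ := by
  induction A using Finset.induction_on with
  | empty =>
    intro ρ h
    have h1 := h fun _ => false
    have h2 : setOn ρ ∅ (fun _ => false) = ρ := by
      funext j; simp [setOn]
    rw [h2] at h1
    simpa using h1
  | insert i A hi ih =>
    intro ρ h
    rw [Finset.card_insert_of_notMem hi, show A.card + 1 + t = A.card + t + 1 by ring]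
    refine Dt.node _ _ i fun b => ih _ fun π => ?_
    have h1 := h (Function.update π i b)
    rw [setOn_insert] at h1
    have h2 : setOn (Function.update ρ i (some (Function.update π i b i))) A
        (Function.update π i b) = setOn (Function.update ρ i (some b)) A π := by
      funext j
      unfold setOn
      by_cases hA : j ∈ A
      · have hj : j ≠ i := fun e => hi (e ▸ hA)
        simp [hA, hj]
      · simp [hA]
    rwa [h2] at h1

lemma update_self' (ρ : Restr I) (i : I) (o : Option Bool) (h : ρ i = o) :
    Function.update ρ i o = ρ := by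
  funext j
  by_cases hj : j = i
  · subst hj; simp [h]
  · simp [hj]

lemma cmp_update_none (ρ τ : Restr I) (i : I) (b : Bool) (h : ρ i = none) :
    cmp ρ (Function.update τ i (some b)) = Function.update (cmp ρ τ) i (some b) := by
  funext j
  by_cases hj : j = i
  · subst hj; simp [H568R2.cmp, h]
  · simp [H568R2.cmp, hj]

lemma cmp_update_some (ρ τ : Restr I) (i : I) (b c : Bool) (h : ρ i = some c) :
    cmp ρ (Function.update τ i (some b)) = cmp ρ τ := by
  funext j
  by_cases hj : j = i
  · subst hj; simp [H568R2.cmp, h]
  · simp [H568R2.cmp, hj]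

/-- A tree for the second of two restrictions. -/
lemma Dt.cmp_right {Q Q' : Restr I → Prop} (ρ : Restr I) (hQ : ∀ τ, Q' τ → Q (cmp ρ τ)) {t : ℕ}
    {τ : Restr I} (h : Dt Q' t τ) : Dt Q t (cmp ρ τ) := by
  induction h with
  | leaf t τ h => exact Dt.leaf _ _ (hQ _ h)
  | node t τ i _ ih =>
    cases hρ : ρ i with
    | none =>
      refine Dt.node _ _ i fun b => ?_
      rw [← cmp_update_none ρ τ i b hρ]
      exact ih b
    | some c =>
      have := ih c
      rw [cmp_update_some ρ τ i c c hρ] at this
      exact this.mono (Nat.le_succ _)

variable [Fintype I]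

open Classical in
/-- The trees at the leaves of a tree, after a random restriction. -/
lemma Ex_leaves {Q Q' : Restr I → Prop} {q δ : ℝ} (h0 : 0 ≤ q) (h1 : q ≤ 1) (hδ : 0 ≤ δ) {t' : ℕ}
    (hQ : ∀ ρ, Q ρ → Ex (wq q) (fun τ : Restr I => if ¬ Dt Q' t' (cmp ρ τ) then (1 : ℝ) else 0) ≤ δ)
    {t : ℕ} {ρ : Restr I} (h : Dt Q t ρ) :
    Ex (wq q) (fun τ : Restr I => if ¬ Dt Q' (t + t') (cmp ρ τ) then (1 : ℝ) else 0) ≤
      2 ^ t * δ := by
  have hw := wq_nonneg h0 h1
  induction h with
  | leaf t ρ hρ =>
    have h2 : (1 : ℝ) ≤ 2 ^ t := one_le_pow₀ (by norm_num)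
    refine (Ex_mono hw fun τ => ?_).trans ((hQ ρ hρ).trans (by nlinarith))
    by_cases hd : Dt Q' t' (cmp ρ τ)
    · rw [if_neg (not_not.2 (hd.mono (by omega)))]
      split_ifs <;> norm_num
    · rw [if_pos hd]
      split_ifs <;> norm_num
  | node t ρ i _ ih =>
    cases hρ : ρ i with
    | some c =>
      have h2 := ih c
      rw [update_self' ρ i (some c) hρ] at h2
      have h3 : (2 : ℝ) ^ t * δ ≤ 2 ^ (t + 1) * δ :=
        mul_le_mul_of_nonneg_right (pow_le_pow_right₀ (by norm_num) (by omega)) hδ
      refine (Ex_mono hw fun τ => ?_).trans (h2.trans h3)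
      by_cases hd : Dt Q' (t + t') (cmp ρ τ)
      · rw [if_neg (not_not.2 (hd.mono (by omega)))]
        split_ifs <;> norm_num
      · rw [if_pos hd]
        split_ifs <;> norm_num
    | none =>
      have hpt : ∀ τ : Restr I, (if ¬ Dt Q' (t + 1 + t') (cmp ρ τ) then (1 : ℝ) else 0) ≤
          (if ¬ Dt Q' (t + t') (cmp (Function.update ρ i (some false)) τ) then (1 : ℝ) else 0) +
          (if ¬ Dt Q' (t + t') (cmp (Function.update ρ i (some true)) τ) then (1 : ℝ) else 0) := by
        intro τ
        by_cases ha : Dt Q' (t + t') (cmp (Function.update ρ i (some false)) τ)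
        · by_cases hb : Dt Q' (t + t') (cmp (Function.update ρ i (some true)) τ)
          · have hab : ∀ b : Bool, Dt Q' (t + t') (cmp (Function.update ρ i (some b)) τ) := by
              intro b; cases b
              · exact ha
              · exact hb
            have hd : Dt Q' (t + 1 + t') (cmp ρ τ) := by
              cases hτ : τ i with
              | some c =>
                have e : cmp (Function.update ρ i (some c)) τ = cmp ρ τ := by
                  funext j
                  by_cases hj : j = i
                  · subst hj; simp [H568R2.cmp, hρ, hτ]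
                  · simp [H568R2.cmp, hj]
                have := hab c
                rw [e] at this
                exact this.mono (by omega)
              | none =>
                rw [show t + 1 + t' = t + t' + 1 by ring]
                refine Dt.node _ _ i fun b => ?_
                have e : cmp (Function.update ρ i (some b)) τ =
                    Function.update (cmp ρ τ) i (some b) := by
                  funext j
                  by_cases hj : j = i
                  · subst hj; simp [H568R2.cmp]
                  · simp [H568R2.cmp, hj]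
                rw [← e]
                exact hab b
            rw [if_neg (not_not.2 hd)]
            split_ifs <;> norm_num
          · rw [if_pos hb]
            split_ifs <;> norm_num
        · rw [if_pos ha]
          split_ifs <;> norm_num
      refine (Ex_mono hw hpt).trans ?_
      rw [Ex_add]
      have h2 := ih false
      have h3 := ih true
      rw [pow_succ]
      linarith

end Pool.Agent.Y603.MS
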