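import Pool.Agent.Y603.MS.Dt

/-!
# The multi-switching lemma (Hastad; Impagliazzo, Matthews, Paturi)
-/

set_option autoImplicit false

namespace Pool.Agent.Y603.MS

open Finset H568R2 Pool.Agent.TH163.AC3

variable {I : Type} [DecidableEq I] [Fintype I]

/-- `σ` extends `ρ`. -/
def Ext (ρ σ : Restr I) : Prop := ∀ i b, ρ i = some b → σ i = some b

/-- Paths of whole stages in the canonical decision tree of the formula `L` restricted by `ρ`; `A`
is the set of the variables on the path, and `σ` encodes the path. -/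
inductive Lp (L : List (Term I)) : ℕ → Restr I → Finset I → Restr I → Prop
  | nil (ρ σ : Restr I) : Ext ρ σ → Lp L 0 ρ ∅ σ
  | step (ρ σ : Restr I) (T : Term I) (π : I → Bool) (s : ℕ) (A : Finset I) :
      L.find? (nonfals ρ) = some T → (stars ρ T).Nonempty →
      (∀ i ∈ stars ρ T, σ i = some (T.2 i)) →
      Lp L s (setOn ρ (stars ρ T) π) A (setOn σ (stars ρ T) π) →
      Lp L ((stars ρ T).card + s) ρ (stars ρ T ∪ A) σ

lemma Lp.ext {L : List (Term I)} {s : ℕ} {ρ σ : Restr I} {A : Finset I} (h : Lp L s ρ A σ) :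
    Ext ρ σ := by
  induction h with
  | nil ρ σ h => exact h
  | step ρ σ T π s A _ _ _ _ ih =>
    intro i b hi
    have hiA : i ∉ stars ρ T := by
      intro hA
      rw [star_none hA] at hi
      cases hi
    have h1 : setOn ρ (stars ρ T) π i = some b := by
      unfold setOn; rw [if_neg hiA]; exact hi
    have h2 := ih i b h1
    unfold setOn at h2
    rwa [if_neg hiA] at h2

lemma Lp.free {L : List (Term I)} {s : ℕ} {ρ σ : Restr I} {A : Finset I} (h : Lp L s ρ A σ) :
    (∀ i ∈ A, ρ i = none) ∧ A.card = s ∧ ∀ i ∈ A, ∃ b, σ i = some b := by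
  induction h with
  | nil ρ σ h => exact ⟨by simp, rfl, by simp⟩
  | step ρ σ T π s A _ _ hσ _ ih =>
    obtain ⟨h1, h2, h3⟩ := ih
    have hdis : Disjoint (stars ρ T) A := by
      rw [Finset.disjoint_left]
      intro i hi hA
      have := h1 i hA
      unfold setOn at this
      rw [if_pos hi] at this
      cases this
    refine ⟨?_, ?_, ?_⟩
    · intro i hi
      rcases Finset.mem_union.1 hi with h | h
      · exact star_none h
      · have h4 := h1 i h
        have h5 : i ∉ stars ρ T := fun h6 => Finset.disjoint_left.1 hdis h6 h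
        unfold setOn at h4
        rwa [if_neg h5] at h4
    · rw [Finset.card_union_of_disjoint hdis, h2]
    · intro i hi
      rcases Finset.mem_union.1 hi with h | h
      · exact ⟨_, hσ i h⟩
      · obtain ⟨b, hb⟩ := h3 i h
        have h5 : i ∉ stars ρ T := fun h6 => Finset.disjoint_left.1 hdis h6 h
        unfold setOn at hb
        rw [if_neg h5] at hb
        exact ⟨b, hb⟩

/-- Paths of several formulas, one after the other; each of them is longer than `ℓ`. -/
inductive MP {ι : Type} (F : ι → List (Term I)) (ℓ : ℕ) : ℕ → Restr I → Restr I → Prop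
  | nil (ρ : Restr I) : MP F ℓ 0 ρ ρ
  | step (ρ σ : Restr I) (v : ι) (s : ℕ) (A : Finset I) (π : I → Bool) (t : ℕ) : ℓ < s →
      Lp (F v) s ρ A σ → MP F ℓ t (setOn ρ A π) (setOn σ A π) → MP F ℓ (s + t) ρ σ

variable {ι : Type}

lemma MP.weight {q : ℝ} (h0 : 0 ≤ q) (h1 : q ≤ 1 / 3) {F : ι → List (Term I)} {ℓ t : ℕ}
    {ρ σ : Restr I} (h : MP F ℓ t ρ σ) :
    ∏ i, wq q (ρ i) ≤ (3 * q) ^ t * ∏ i, wq q (σ i) := by
  induction h with
  | nil ρ => simp
  | step ρ σ v s A π t _ hL _ ih =>
    obtain ⟨h2, h3, h4⟩ := hL.free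
    have a1 := prod_setOn_pow h0 h1 ρ π A h2
    have a3 : ∏ i, wq q (setOn σ A π i) = ∏ i, wq q (σ i) := by
      refine Finset.prod_congr rfl fun i _ => ?_
      unfold setOn
      by_cases hi : i ∈ A
      · rw [if_pos hi]
        obtain ⟨b, hb⟩ := h4 i hi
        rw [hb]; rfl
      · rw [if_neg hi]
    rw [a3] at ih
    calc ∏ i, wq q (ρ i) ≤ (3 * q) ^ A.card * ∏ i, wq q (setOn ρ A π i) := a1
      _ ≤ (3 * q) ^ A.card * ((3 * q) ^ t * ∏ i, wq q (σ i)) :=
        mul_le_mul_of_nonneg_left ih (by positivity)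
      _ = (3 * q) ^ (s + t) * ∏ i, wq q (σ i) := by rw [h3, pow_add]; ring

lemma MP.le_card {F : ι → List (Term I)} {ℓ t : ℕ} {ρ σ : Restr I} (h : MP F ℓ t ρ σ) :
    t + (univ.filter fun i => σ i = none).card ≤ (univ.filter fun i => ρ i = none).card := by
  induction h with
  | nil ρ => simp
  | step ρ σ v s A π t _ hL _ ih =>
    obtain ⟨h2, h3, h4⟩ := hL.free
    have e1 : (univ.filter fun i => setOn σ A π i = none) = univ.filter fun i => σ i = none := by
      refine Finset.filter_congr fun i _ => ?_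
      unfold setOn
      by_cases hi : i ∈ A
      · rw [if_pos hi]
        obtain ⟨b, hb⟩ := h4 i hi
        rw [hb]; simp
      · rw [if_neg hi]
    have e2 : (univ.filter fun i => ρ i = none) =
        A ∪ univ.filter fun i => setOn ρ A π i = none := by
      ext i
      simp only [Finset.mem_filter, Finset.mem_univ, true_and, Finset.mem_union]
      unfold setOn
      by_cases hi : i ∈ A
      · simp [hi, h2 i hi]
      · simp [hi]
    have e3 : Disjoint A (univ.filter fun i => setOn ρ A π i = none) := by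
      rw [Finset.disjoint_left]
      intro i hi h5
      have := (Finset.mem_filter.1 h5).2
      unfold setOn at this
      rw [if_pos hi] at this
      cases this
    rw [e1] at ih
    rw [e2, Finset.card_union_of_disjoint e3, h3]
    omega

lemma setOn_setOn_same (ρ : Restr I) (A : Finset I) (π π' : I → Bool) :
    setOn (setOn ρ A π) A π' = setOn ρ A π' := by
  funext i
  unfold setOn
  split_ifs <;> rfl

lemma setOn_filter (ρ : Restr I) (A : Finset I) (π : I → Bool) :
    setOn ρ A π = setOn ρ A (fun i => decide (i ∈ A.filter fun j => π j = true)) := by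
  funext i
  unfold setOn
  by_cases hi : i ∈ A
  · simp [hi]
  · simp [hi]

/-- The first term of a path is determined by its code. -/
lemma find_code {L : List (Term I)} {ρ σ : Restr I} {T : Term I}
    (hf : L.find? (nonfals ρ) = some T) (hext : Ext ρ σ)
    (hσ : ∀ i ∈ stars ρ T, σ i = some (T.2 i)) : L.find? (nonfals σ) = some T := by
  have hnf := List.find?_some hf
  refine find_eq L (nonfals ρ) _ T hf ?_ ?_
  · intro S hS
    rw [nonfals, decide_eq_true_eq] at hS ⊢
    intro i hi
    cases hρi : ρ i with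
    | none => left; rfl
    | some b =>
      right
      have := hext i b hρi
      rcases hS i hi with h | h
      · rw [this] at h; cases h
      · rw [this] at h; exact h
  · rw [nonfals, decide_eq_true_eq] at hnf ⊢
    intro i hi
    by_cases his : i ∈ stars ρ T
    · right; exact hσ i his
    · rcases hnf i hi with h | h
      · exact absurd (Finset.mem_filter.2 ⟨hi, h⟩) his
      · right; exact hext i _ h

open Classical in
/-- The number of sets of variables of paths with a given code. -/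
lemma Lp.count {L : List (Term I)} {k : ℕ} (hL : ∀ T ∈ L, T.1.card ≤ k) :
    ∀ (s : ℕ) (σ : Restr I),
      ((univ.filter fun A : Finset I => ∃ ρ, Lp L s ρ A σ).card : ℝ) ≤ (4 * k : ℝ) ^ s := by
  intro s
  induction s using Nat.strong_induction_on with
  | _ s ih =>
  intro σ
  rcases Nat.eq_zero_or_pos s with rfl | hs
  · have hsub : (univ.filter fun A : Finset I => ∃ ρ, Lp L 0 ρ A σ) ⊆ {∅} := by
      intro A hA
      obtain ⟨ρ, h⟩ := (Finset.mem_filter.1 hA).2
      have := h.free.2.1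
      rw [Finset.mem_singleton]
      exact Finset.card_eq_zero.1 this
    have h1 := (Nat.cast_le (α := ℝ)).2 (Finset.card_le_card hsub)
    rw [pow_zero]
    simpa using h1
  -- the shape of a path
  have hshape : ∀ (A : Finset I) (ρ : Restr I), Lp L s ρ A σ → ∃ T : Term I,
      L.find? (nonfals σ) = some T ∧ ∃ A₁ ∈ T.1.powerset, 1 ≤ A₁.card ∧ A₁.card ≤ s ∧
        ∃ P ∈ A₁.powerset, ∃ A₂, (∃ ρ₂, Lp L (s - A₁.card) ρ₂ A₂
          (setOn σ A₁ (fun i => decide (i ∈ P)))) ∧ A = A₁ ∪ A₂ := by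
    intro A ρ h
    have hext := h.ext
    cases h with
    | nil => omega
    | step _ _ T π s' A' hf hne hσ hP =>
      refine ⟨T, find_code hf hext hσ, stars ρ T,
        Finset.mem_powerset.2 (Finset.filter_subset _ _), hne.card_pos, by omega,
        (stars ρ T).filter (fun i => π i = true), Finset.mem_powerset.2 (Finset.filter_subset _ _),
        A', ⟨setOn ρ (stars ρ T) π, ?_⟩, rfl⟩
      rw [show (stars ρ T).card + s' - (stars ρ T).card = s' by omega, ← setOn_filter]
      exact hP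
  cases hT : L.find? (nonfals σ) with
  | none =>
    have : (univ.filter fun A : Finset I => ∃ ρ, Lp L s ρ A σ) = ∅ := by
      rw [Finset.filter_eq_empty_iff]
      rintro A - ⟨ρ, h⟩
      obtain ⟨T, hf, _⟩ := hshape A ρ h
      rw [hT] at hf
      cases hf
    rw [this]
    simp only [Finset.card_empty, Nat.cast_zero]
    positivity
  | some T =>
    have hTmem := List.mem_of_find?_eq_some hT
    let Fam : Finset I → Finset (Finset I) := fun A₁ =>
      if 1 ≤ A₁.card ∧ A₁.card ≤ s then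
        A₁.powerset.biUnion fun P => (univ.filter fun A₂ : Finset I => ∃ ρ₂,
          Lp L (s - A₁.card) ρ₂ A₂ (setOn σ A₁ (fun i => decide (i ∈ P)))).image
            fun A₂ => A₁ ∪ A₂ else ∅
    have hsub : (univ.filter fun A : Finset I => ∃ ρ, Lp L s ρ A σ) ⊆ T.1.powerset.biUnion Fam := by
      intro A hA
      obtain ⟨ρ, h⟩ := (Finset.mem_filter.1 hA).2
      obtain ⟨T', hf, A₁, hA₁, h1, h2, P, hP, A₂, hA₂, he⟩ := hshape A ρ h
      rw [hT] at hf
      have hTT := Option.some.inj hf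
      subst hTT
      rw [Finset.mem_biUnion]
      refine ⟨A₁, hA₁, ?_⟩
      simp only [Fam, if_pos (And.intro h1 h2)]
      rw [Finset.mem_biUnion]
      refine ⟨P, hP, ?_⟩
      rw [Finset.mem_image]
      exact ⟨A₂, Finset.mem_filter.2 ⟨Finset.mem_univ _, hA₂⟩, he.symm⟩
    have hcard : ∀ A₁ ∈ T.1.powerset, ((Fam A₁).card : ℝ) ≤
        (if 1 ≤ A₁.card ∧ A₁.card ≤ s then 2 ^ A₁.card * (4 * k : ℝ) ^ (s - A₁.card) else 0) := by
      intro A₁ _
      by_cases h2 : 1 ≤ A₁.card ∧ A₁.card ≤ s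
      · simp only [Fam, if_pos h2]
        have h4 := Finset.card_biUnion_le (s := A₁.powerset) (t := fun P =>
          (univ.filter fun A₂ : Finset I => ∃ ρ₂,
            Lp L (s - A₁.card) ρ₂ A₂ (setOn σ A₁ (fun i => decide (i ∈ P)))).image
              fun A₂ => A₁ ∪ A₂)
        have h5 := (Nat.cast_le (α := ℝ)).2 h4
        refine h5.trans ?_
        rw [Nat.cast_sum]
        have h6 : ∀ P ∈ A₁.powerset, ((((univ.filter fun A₂ : Finset I => ∃ ρ₂,
            Lp L (s - A₁.card) ρ₂ A₂ (setOn σ A₁ (fun i => decide (i ∈ P)))).image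
              fun A₂ => A₁ ∪ A₂).card : ℕ) : ℝ) ≤ (4 * k : ℝ) ^ (s - A₁.card) := fun P _ =>
          ((Nat.cast_le (α := ℝ)).2 Finset.card_image_le).trans (ih (s - A₁.card) (by omega) _)
        refine (Finset.sum_le_sum h6).trans (le_of_eq ?_)
        rw [Finset.sum_const, Finset.card_powerset, nsmul_eq_mul]
        push_cast
        rfl
      · simp only [Fam, if_neg h2, Finset.card_empty, Nat.cast_zero, le_refl]
    have h6 := (Nat.cast_le (α := ℝ)).2 ((Finset.card_le_card hsub).trans Finset.card_biUnion_le)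
    refine h6.trans ?_
    rw [Nat.cast_sum]
    refine (Finset.sum_le_sum hcard).trans ?_
    rw [Finset.sum_powerset_apply_card (fun a => if 1 ≤ a ∧ a ≤ s then
      2 ^ a * (4 * k : ℝ) ^ (s - a) else 0)]
    have hterm : ∀ a ∈ Finset.range (T.1.card + 1), (T.1.card.choose a) •
        (if 1 ≤ a ∧ a ≤ s then 2 ^ a * (4 * k : ℝ) ^ (s - a) else 0) ≤
        (4 * k : ℝ) ^ s * (if 1 ≤ a then ((1 : ℝ) / 2) ^ a else 0) := by
      intro a _
      rw [nsmul_eq_mul]
      have hch : ((T.1.card.choose a : ℕ) : ℝ) ≤ (k : ℝ) ^ a := by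
        have : T.1.card.choose a ≤ k ^ a :=
          (Nat.choose_le_pow _ _).trans (Nat.pow_le_pow_left (hL T hTmem) a)
        exact_mod_cast this
      by_cases h2 : 1 ≤ a ∧ a ≤ s
      · rw [if_pos h2, if_pos h2.1]
        calc ((T.1.card.choose a : ℕ) : ℝ) * (2 ^ a * (4 * k : ℝ) ^ (s - a)) ≤
              (k : ℝ) ^ a * (2 ^ a * (4 * k : ℝ) ^ (s - a)) :=
              mul_le_mul_of_nonneg_right hch (by positivity)
          _ = (4 * k : ℝ) ^ s * ((1 : ℝ) / 2) ^ a := by
              have h3 : (4 * k : ℝ) ^ s = (4 * k : ℝ) ^ a * (4 * k : ℝ) ^ (s - a) := by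
                rw [← pow_add]
                congr 1
                omega
              rw [h3]
              have h4 : (k : ℝ) ^ a * 2 ^ a = (4 * k : ℝ) ^ a * (1 / 2) ^ a := by
                rw [← mul_pow, ← mul_pow]
                congr 1
                ring
              rw [← mul_assoc, h4]
              ring
      · rw [if_neg h2, mul_zero]
        split_ifs <;> positivity
    refine (Finset.sum_le_sum hterm).trans ?_
    rw [← Finset.mul_sum]
    have := mul_le_mul_of_nonneg_left (sum_half (T.1.card + 1))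
      (show (0 : ℝ) ≤ (4 * k : ℝ) ^ s by positivity)
    linarith

open Classical in
/-- The number of restrictions with a given code. -/
lemma MP.count [Fintype ι] {F : ι → List (Term I)} {k ℓ : ℕ} (hF : ∀ v, ∀ T ∈ F v, T.1.card ≤ k)
    (hι : Fintype.card ι ≤ 2 ^ ℓ) : ∀ (t : ℕ) (σ : Restr I),
      ((univ.filter fun ρ : Restr I => MP F ℓ t ρ σ).card : ℝ) ≤ (32 * k : ℝ) ^ t := by
  intro t
  induction t using Nat.strong_induction_on with
  | _ t ih =>
  intro σ
  rcases Nat.eq_zero_or_pos t with rfl | ht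
  · have hsub : (univ.filter fun ρ : Restr I => MP F ℓ 0 ρ σ) ⊆ {σ} := by
      intro ρ hρ
      have h := (Finset.mem_filter.1 hρ).2
      rw [Finset.mem_singleton]
      generalize h0 : 0 = z at h
      cases h with
      | nil => rfl
      | step _ _ v s A π t hs _ _ => omega
    have h1 := (Nat.cast_le (α := ℝ)).2 (Finset.card_le_card hsub)
    rw [pow_zero]
    simpa using h1
  let Fam : ι × ℕ → Finset (Restr I) := fun x =>
    (univ.filter fun A : Finset I => A.card = x.2 ∧ ∃ ρ, Lp (F x.1) x.2 ρ A σ).biUnion fun A =>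
      A.powerset.biUnion fun P => (univ.filter fun ρ₁ : Restr I =>
        MP F ℓ (t - x.2) ρ₁ (setOn σ A (fun i => decide (i ∈ P)))).image fun ρ₁ => unset ρ₁ A
  have hsub : (univ.filter fun ρ : Restr I => MP F ℓ t ρ σ) ⊆
      ((univ : Finset ι) ×ˢ (Finset.Icc (ℓ + 1) t)).biUnion Fam := by
    intro ρ hρ
    have h := (Finset.mem_filter.1 hρ).2
    cases h with
    | nil => omega
    | step _ _ v s A π t' hs hL hM =>
      obtain ⟨h2, h3, h4⟩ := hL.free
      rw [Finset.mem_biUnion]
      refine ⟨(v, s), Finset.mem_product.2 ⟨Finset.mem_univ _, Finset.mem_Icc.2 ⟨hs, by omega⟩⟩, ?_⟩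
      simp only [Fam]
      rw [Finset.mem_biUnion]
      refine ⟨A, Finset.mem_filter.2 ⟨Finset.mem_univ _, h3, ρ, hL⟩, ?_⟩
      rw [Finset.mem_biUnion]
      refine ⟨A.filter fun i => π i = true, Finset.mem_powerset.2 (Finset.filter_subset _ _), ?_⟩
      rw [Finset.mem_image]
      refine ⟨setOn ρ A π, Finset.mem_filter.2 ⟨Finset.mem_univ _, ?_⟩, ?_⟩
      · rw [show s + t' - s = t' by omega, ← setOn_filter]
        exact hM
      · funext i
        unfold unset setOn
        by_cases hi : i ∈ A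
        · rw [if_pos hi, h2 i hi]
        · rw [if_neg hi, if_neg hi]
  have hcard : ∀ x ∈ (univ : Finset ι) ×ˢ (Finset.Icc (ℓ + 1) t),
      ((Fam x).card : ℝ) ≤ (8 * k : ℝ) ^ x.2 * (32 * k : ℝ) ^ (t - x.2) := by
    rintro ⟨v, s⟩ hx
    obtain ⟨_, hx2⟩ := Finset.mem_product.1 hx
    rw [Finset.mem_Icc] at hx2
    simp only at hx2 ⊢
    have h4 := (Nat.cast_le (α := ℝ)).2 (Finset.card_biUnion_le
      (s := univ.filter fun A : Finset I => A.card = s ∧ ∃ ρ, Lp (F v) s ρ A σ) (t := fun A =>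
      A.powerset.biUnion fun P => (univ.filter fun ρ₁ : Restr I =>
        MP F ℓ (t - s) ρ₁ (setOn σ A (fun i => decide (i ∈ P)))).image fun ρ₁ => unset ρ₁ A))
    refine h4.trans ?_
    rw [Nat.cast_sum]
    have h5 : ∀ A ∈ univ.filter (fun A : Finset I => A.card = s ∧ ∃ ρ, Lp (F v) s ρ A σ),
        (((A.powerset.biUnion fun P => (univ.filter fun ρ₁ : Restr I =>
          MP F ℓ (t - s) ρ₁ (setOn σ A (fun i => decide (i ∈ P)))).image
            fun ρ₁ => unset ρ₁ A).card : ℕ) : ℝ) ≤ 2 ^ s * (32 * k : ℝ) ^ (t - s) := by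
      intro A hA
      have hAs := (Finset.mem_filter.1 hA).2.1
      have h6 := (Nat.cast_le (α := ℝ)).2 (Finset.card_biUnion_le (s := A.powerset)
        (t := fun P => (univ.filter fun ρ₁ : Restr I =>
          MP F ℓ (t - s) ρ₁ (setOn σ A (fun i => decide (i ∈ P)))).image fun ρ₁ => unset ρ₁ A))
      refine h6.trans ?_
      rw [Nat.cast_sum]
      have h7 : ∀ P ∈ A.powerset, ((((univ.filter fun ρ₁ : Restr I =>
          MP F ℓ (t - s) ρ₁ (setOn σ A (fun i => decide (i ∈ P)))).image
            fun ρ₁ => unset ρ₁ A).card : ℕ) : ℝ) ≤ (32 * k : ℝ) ^ (t - s) := fun P _ =>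
        ((Nat.cast_le (α := ℝ)).2 Finset.card_image_le).trans (ih (t - s) (by omega) _)
      refine (Finset.sum_le_sum h7).trans (le_of_eq ?_)
      rw [Finset.sum_const, Finset.card_powerset, nsmul_eq_mul, hAs]
      push_cast
      rfl
    refine (Finset.sum_le_sum h5).trans ?_
    rw [Finset.sum_const, nsmul_eq_mul]
    have h8 : ((univ.filter fun A : Finset I => A.card = s ∧ ∃ ρ, Lp (F v) s ρ A σ).card : ℝ) ≤
        (4 * k : ℝ) ^ s := by
      refine le_trans ?_ (Lp.count (hF v) s σ)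
      refine (Nat.cast_le (α := ℝ)).2 (Finset.card_le_card ?_)
      intro A hA
      exact Finset.mem_filter.2 ⟨Finset.mem_univ _, (Finset.mem_filter.1 hA).2.2⟩
    calc _ ≤ (4 * k : ℝ) ^ s * (2 ^ s * (32 * k : ℝ) ^ (t - s)) :=
          mul_le_mul_of_nonneg_right h8 (by positivity)
      _ = (8 * k : ℝ) ^ s * (32 * k : ℝ) ^ (t - s) := by
          rw [← mul_assoc, ← mul_pow]; congr 2; ring
  have h6 := (Nat.cast_le (α := ℝ)).2 ((Finset.card_le_card hsub).trans Finset.card_biUnion_le)
  refine h6.trans ?_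
  rw [Nat.cast_sum]
  refine (Finset.sum_le_sum hcard).trans ?_
  rw [Finset.sum_product]
  simp only
  rw [Finset.sum_const, Finset.card_univ, nsmul_eq_mul]
  have hι' : (Fintype.card ι : ℝ) ≤ 2 ^ ℓ := by exact_mod_cast hι
  have h9 : ∀ s ∈ Finset.Icc (ℓ + 1) t, (8 * k : ℝ) ^ s * (32 * k : ℝ) ^ (t - s) =
      (32 * k : ℝ) ^ t * (1 / 4) ^ s := by
    intro s hs
    rw [Finset.mem_Icc] at hs
    have h3 : (32 * k : ℝ) ^ t = (32 * k : ℝ) ^ s * (32 * k : ℝ) ^ (t - s) := by
      rw [← pow_add]; congr 1; omega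
    rw [h3]
    have h4 : (8 * k : ℝ) ^ s = (32 * k : ℝ) ^ s * (1 / 4) ^ s := by
      rw [← mul_pow]; congr 1; ring
    rw [h4]; ring
  rw [Finset.sum_congr rfl h9, ← Finset.mul_sum]
  have h10 : ∀ s ∈ Finset.Icc (ℓ + 1) t, ((1 : ℝ) / 4) ^ s ≤ (1 / 2) ^ ℓ *
      (if 1 ≤ s then ((1 : ℝ) / 2) ^ s else 0) := by
    intro s hs
    rw [Finset.mem_Icc] at hs
    rw [if_pos (by omega)]
    have h11 : ((1 : ℝ) / 4) ^ s = (1 / 2) ^ s * (1 / 2) ^ s := by
      rw [← mul_pow]; norm_num
    rw [h11]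
    exact mul_le_mul_of_nonneg_right (pow_le_pow_of_le_one (by norm_num) (by norm_num) (by omega))
      (by positivity)
  have h12 : ∑ s ∈ Finset.Icc (ℓ + 1) t, ((1 : ℝ) / 4) ^ s ≤ (1 / 2) ^ ℓ := by
    refine (Finset.sum_le_sum h10).trans ?_
    rw [← Finset.mul_sum]
    have h13 : ∑ s ∈ Finset.Icc (ℓ + 1) t, (if 1 ≤ s then ((1 : ℝ) / 2) ^ s else 0) ≤
        ∑ s ∈ Finset.range (t + 1), (if 1 ≤ s then ((1 : ℝ) / 2) ^ s else 0) := by
      apply Finset.sum_le_sum_of_subset_of_nonneg
      · intro s hs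
        rw [Finset.mem_Icc] at hs
        rw [Finset.mem_range]
        omega
      · intro s _ _
        split_ifs <;> positivity
    have h14 := sum_half (t + 1)
    calc (1 / 2 : ℝ) ^ ℓ * _ ≤ (1 / 2 : ℝ) ^ ℓ * 1 :=
          mul_le_mul_of_nonneg_left (h13.trans h14) (by positivity)
      _ = _ := mul_one _
  calc (Fintype.card ι : ℝ) * ((32 * k : ℝ) ^ t * ∑ s ∈ Finset.Icc (ℓ + 1) t, ((1 : ℝ) / 4) ^ s)
      ≤ 2 ^ ℓ * ((32 * k : ℝ) ^ t * (1 / 2) ^ ℓ) := by
        refine mul_le_mul hι' (mul_le_mul_of_nonneg_left h12 (by positivity)) ?_ (by positivity)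
        refine mul_nonneg (by positivity) (Finset.sum_nonneg fun s _ => by positivity)
    _ = (32 * k : ℝ) ^ t * (2 ^ ℓ * (1 / 2) ^ ℓ) := by ring
    _ = (32 * k : ℝ) ^ t := by rw [← mul_pow]; norm_num

end Pool.Agent.Y603.MS
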