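import Pool.Agent.Y603.MS.Multi

/-!
# The multi-switching lemma, continued
-/

set_option autoImplicit false

namespace Pool.Agent.Y603.MS

open Finset H568R2 Pool.Agent.TH163.AC3

variable {I : Type} [DecidableEq I] [Fintype I]

/-- A restricted formula without a shallow decision tree has a long path. -/
lemma Lp.exists {L : List (Term I)} : ∀ (s : ℕ) (ρ : Restr I),
    ¬ HasDT s (rs (dnf L) ρ) → ∃ (s' : ℕ) (A : Finset I) (e : I → Bool), s < s' ∧
      (∀ i ∈ A, ρ i = none) ∧ A.card = s' ∧
      ∀ τ : Restr I, (∀ i ∉ A, ∀ b, ρ i = some b → τ i = some b) →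
        Lp L s' ρ A (setOn τ A e) := by
  intro s
  induction s using Nat.strong_induction_on with
  | _ s ih =>
  intro ρ hno
  cases hT : L.find? (nonfals ρ) with
  | none =>
    exfalso
    apply hno
    apply hasDT_const false
    intro x
    rw [List.find?_eq_none] at hT
    simp only [rs, dnf, decide_eq_false_iff_not, not_exists, not_and]
    intro T hTL hx
    apply hT T hTL
    rw [nonfals, decide_eq_true_eq]
    intro i hi
    have := hx i hi
    unfold ov at this
    cases hρ : ρ i with
    | none => left; rfl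
    | some b => rw [hρ] at this; right; simp at this; rw [this]
  | some T =>
    have hTmem := List.mem_of_find?_eq_some hT
    have hnf := List.find?_some hT
    rw [nonfals, decide_eq_true_eq] at hnf
    by_cases hne : (stars ρ T).Nonempty
    swap
    · exfalso
      apply hno
      apply hasDT_const true
      intro x
      simp only [rs, dnf, decide_eq_true_eq]
      refine ⟨T, hTmem, ?_⟩
      intro i hi
      rcases hnf i hi with h | h
      · exact absurd ⟨i, Finset.mem_filter.2 ⟨hi, h⟩⟩ hne
      · unfold ov; rw [h]; rfl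
    by_cases hcard : s + 1 ≤ (stars ρ T).card
    · refine ⟨(stars ρ T).card, stars ρ T, T.2, by omega, fun i hi => star_none hi, rfl, ?_⟩
      intro τ hτ
      have h1 := Lp.step (L := L) ρ (setOn τ (stars ρ T) T.2) T (fun _ => false) 0 ∅ hT hne
        (fun i hi => by unfold setOn; rw [if_pos hi]) (Lp.nil _ _ (by
          intro i b hi
          unfold setOn at hi ⊢
          by_cases hA : i ∈ stars ρ T
          · rw [if_pos hA] at hi ⊢
            exact hi
          · rw [if_neg hA] at hi ⊢
            rw [if_neg hA]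
            exact hτ i hA b hi))
      simpa using h1
    · have hpos := hne.card_pos
      have h1 : ¬ ∀ π : I → Bool, HasDT (s - (stars ρ T).card)
          (fun x => rs (dnf L) ρ (ovr (stars ρ T) π x)) := by
        intro hall
        apply hno
        have := hasDT_query (stars ρ T) (rs (dnf L) ρ) (s - (stars ρ T).card) hall
        have h2 : (stars ρ T).card + (s - (stars ρ T).card) = s := by omega
        rwa [h2] at this
      rw [not_forall] at h1
      obtain ⟨π, hπ⟩ := h1
      have h3 : (fun x => rs (dnf L) ρ (ovr (stars ρ T) π x)) =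
          rs (dnf L) (setOn ρ (stars ρ T) π) := by
        funext x
        unfold rs
        congr 1
        funext i
        unfold ov ovr setOn
        by_cases hi : i ∈ stars ρ T
        · rw [if_pos hi, if_pos hi, star_none hi]
          rfl
        · rw [if_neg hi, if_neg hi]
      rw [h3] at hπ
      obtain ⟨s', A, e, hs', hA1, hA2, hA3⟩ := ih (s - (stars ρ T).card) (by omega) _ hπ
      have hdis : Disjoint (stars ρ T) A := by
        rw [Finset.disjoint_left]
        intro i hi hA
        have := hA1 i hA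
        unfold setOn at this
        rw [if_pos hi] at this
        cases this
      refine ⟨(stars ρ T).card + s', stars ρ T ∪ A, fun i => if i ∈ stars ρ T then T.2 i else e i,
        by omega, ?_, by rw [Finset.card_union_of_disjoint hdis, hA2], ?_⟩
      · intro i hi
        rcases Finset.mem_union.1 hi with h | h
        · exact star_none h
        · have h4 := hA1 i h
          have h5 : i ∉ stars ρ T := fun h6 => Finset.disjoint_left.1 hdis h6 h
          unfold setOn at h4
          rwa [if_neg h5] at h4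
      · intro τ hτ
        refine Lp.step ρ _ T π s' A hT hne ?_ ?_
        · intro i hi
          unfold setOn
          rw [if_pos (Finset.mem_union_left _ hi)]
          simp only [hi, if_true]
        · have h6 := hA3 (setOn τ (stars ρ T) π) (by
            intro i hi b hb
            unfold setOn at hb ⊢
            by_cases h7 : i ∈ stars ρ T
            · rw [if_pos h7] at hb ⊢
              exact hb
            · rw [if_neg h7] at hb ⊢
              refine hτ i ?_ b hb
              intro h8
              rcases Finset.mem_union.1 h8 with h | h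
              · exact h7 h
              · exact hi h)
          have h7 : setOn (setOn τ (stars ρ T) π) A e = setOn (setOn τ (stars ρ T ∪ A)
              fun i => if i ∈ stars ρ T then T.2 i else e i) (stars ρ T) π := by
            funext i
            unfold setOn
            by_cases h8 : i ∈ stars ρ T
            · have h9 : i ∉ A := Finset.disjoint_left.1 hdis h8
              rw [if_neg h9, if_pos h8, if_pos h8]
            · by_cases h9 : i ∈ A
              · rw [if_pos h9, if_neg h8, if_pos (Finset.mem_union_right _ h9)]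
                simp only [h8, if_false]
              · rw [if_neg h9, if_neg h8, if_neg h8, if_neg]
                intro h10
                rcases Finset.mem_union.1 h10 with h | h
                · exact h8 h
                · exact h9 h
          rw [← h7]
          exact h6

variable {ι : Type}

lemma MP.ext {F : ι → List (Term I)} {ℓ t : ℕ} {ρ σ : Restr I} (h : MP F ℓ t ρ σ) : Ext ρ σ := by
  cases h with
  | nil => exact fun i b h => h
  | step _ _ _ _ _ _ _ _ hL _ => exact hL.ext

/-- Without a shallow common tree there is a long path. -/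
lemma MP.exists {F : ι → List (Term I)} {ℓ : ℕ} : ∀ (t : ℕ) (ρ : Restr I),
    ¬ Dt (fun ρ' => ∀ v, HasDT ℓ (rs (dnf (F v)) ρ')) t ρ → ∃ t' σ, t < t' ∧ MP F ℓ t' ρ σ := by
  intro t
  induction t using Nat.strong_induction_on with
  | _ t ih =>
  intro ρ hno
  have h1 : ¬ ∀ v, HasDT ℓ (rs (dnf (F v)) ρ) := fun h => hno (Dt.leaf _ _ h)
  rw [not_forall] at h1
  obtain ⟨v, hv⟩ := h1
  obtain ⟨s, A, e, hs, hA1, hA2, hA3⟩ := Lp.exists ℓ ρ hv
  by_cases hst : t < s
  · refine ⟨s + 0, setOn ρ A e, by omega, ?_⟩
    refine MP.step ρ _ v s A e 0 hs (hA3 ρ fun i _ b h => h) ?_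
    have : setOn (setOn ρ A e) A e = setOn ρ A e := setOn_setOn_same _ _ _ _
    rw [this]
    exact MP.nil _
  · have h2 : ¬ ∀ π : I → Bool, Dt (fun ρ' => ∀ v, HasDT ℓ (rs (dnf (F v)) ρ')) (t - s)
        (setOn ρ A π) := by
      intro hall
      apply hno
      have := Dt.query A ρ hall
      rwa [hA2, Nat.add_sub_cancel' (not_lt.1 hst)] at this
    rw [not_forall] at h2
    obtain ⟨π, hπ⟩ := h2
    obtain ⟨t', σ, ht', hσ⟩ := ih (t - s) (by omega) _ hπ
    refine ⟨s + t', setOn σ A e, by omega, ?_⟩
    have hext := hσ.ext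
    refine MP.step ρ _ v s A π t' hs (hA3 σ ?_) ?_
    · intro i hi b hb
      apply hext
      unfold setOn
      rw [if_neg hi]
      exact hb
    · have h3 : setOn (setOn σ A e) A π = σ := by
        rw [setOn_setOn_same]
        funext i
        unfold setOn
        by_cases hi : i ∈ A
        · rw [if_pos hi]
          exact (hext i (π i) (by unfold setOn; rw [if_pos hi])).symm
        · rw [if_neg hi]
      rw [h3]
      exact hσ

lemma geom_tail (x : ℝ) (h0 : 0 ≤ x) (h1 : x ≤ 1 / 2) (t M : ℕ) :
    ∑ s ∈ Finset.Ioc t M, x ^ s ≤ 2 * x ^ (t + 1) := by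
  have key : ∀ n : ℕ, ∑ s ∈ Finset.Ioc t (t + n), x ^ s ≤ 2 * x ^ (t + 1) - 2 * x ^ (t + n + 1) := by
    intro n
    induction n with
    | zero => simp
    | succ n ih =>
      rw [← add_assoc, ← Finset.sum_Ioc_consecutive (fun s => x ^ s) (by omega : t ≤ t + n)
        (by omega : t + n ≤ t + n + 1)]
      have h2 : ∑ s ∈ Finset.Ioc (t + n) (t + n + 1), x ^ s = x ^ (t + n + 1) := by
        rw [Nat.Ioc_succ_singleton, Finset.sum_singleton]
      rw [h2]
      have h3 : x ^ (t + n + 1 + 1) = x ^ (t + n + 1) * x := pow_succ _ _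
      have h4 : 0 ≤ x ^ (t + n + 1) := pow_nonneg h0 _
      have h5 : x ^ (t + n + 1) * x ≤ x ^ (t + n + 1) * (1 / 2) :=
        mul_le_mul_of_nonneg_left h1 h4
      rw [h3]
      linarith
  rcases le_or_gt M t with h | h
  · rw [Finset.Ioc_eq_empty (by omega), Finset.sum_empty]
    positivity
  · have h2 := key (M - t)
    rw [Nat.add_sub_cancel' h.le] at h2
    have : 0 ≤ x ^ (M + 1) := pow_nonneg h0 _
    linarith

open Classical in
/-- **The multi-switching lemma.** -/
theorem multi_switching [Fintype ι] {F : ι → (I → Bool) → Bool} {k ℓ : ℕ}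
    (hF : ∀ v, ∃ b, Cert k b (F v)) (hι : Fintype.card ι ≤ 2 ^ ℓ) {q : ℝ} (h0 : 0 ≤ q)
    (h1 : q ≤ 1 / 3) (h2 : 96 * k * q ≤ 1 / 2) (t : ℕ) :
    Ex (wq q) (fun ρ : Restr I => if ¬ Dt (fun ρ' => ∀ v, HasDT ℓ (rs (F v) ρ')) t ρ then (1 : ℝ)
      else 0) ≤ 2 * (96 * k * q) ^ (t + 1) := by
  -- formulas
  have hL : ∀ v, ∃ L : List (Term I), (∀ T ∈ L, T.1.card ≤ k) ∧
      ∀ ρ', HasDT ℓ (rs (F v) ρ') ↔ HasDT ℓ (rs (dnf L) ρ') := by
    intro v
    obtain ⟨b, hb⟩ := hF v
    cases b with
    | true =>
      obtain ⟨L, hL1, hL2⟩ := cert_dnf hb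
      exact ⟨L, hL1, fun ρ' => by rw [hL2]⟩
    | false =>
      have hf' : Cert k true (fun x => !F v x) := by
        intro x hx
        obtain ⟨A, hA, hy⟩ := hb x (by simpa using hx)
        exact ⟨A, hA, fun y h => by simp [hy y h]⟩
      obtain ⟨L, hL1, hL2⟩ := cert_dnf hf'
      refine ⟨L, hL1, fun ρ' => ?_⟩
      rw [hL2]
      constructor
      · intro h
        exact h.not
      · intro h
        have h3 := h.not
        have : (fun x => !(rs (fun x => !F v x) ρ' x)) = rs (F v) ρ' := by
          funext x; simp [rs]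
        rwa [this] at h3
  choose L hL1 hL2 using hL
  have hQ : (fun ρ' : Restr I => ∀ v, HasDT ℓ (rs (F v) ρ')) =
      fun ρ' => ∀ v, HasDT ℓ (rs (dnf (L v)) ρ') := by
    funext ρ'
    exact propext (forall_congr' fun v => hL2 v ρ')
  rw [hQ]
  set M := Fintype.card I with hM
  have hw0 : ∀ σ : Restr I, 0 ≤ ∏ i, wq q (σ i) := fun σ =>
    Finset.prod_nonneg fun i _ => wq_nonneg h0 (by linarith) _
  have hstep : ∀ ρ : Restr I, (∏ i, wq q (ρ i)) *
      (if ¬ Dt (fun ρ' => ∀ v, HasDT ℓ (rs (dnf (L v)) ρ')) t ρ then (1 : ℝ) else 0) ≤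
      ∑ t' ∈ Finset.Ioc t M, ∑ σ : Restr I,
        if MP L ℓ t' ρ σ then (3 * q) ^ t' * ∏ i, wq q (σ i) else 0 := by
    intro ρ
    have hnn : ∀ (t' : ℕ) (σ : Restr I), 0 ≤ (if MP L ℓ t' ρ σ then
        (3 * q) ^ t' * ∏ i, wq q (σ i) else 0) := by
      intro t' σ
      split_ifs
      · exact mul_nonneg (by positivity) (hw0 σ)
      · exact le_refl _
    by_cases hJ : Dt (fun ρ' => ∀ v, HasDT ℓ (rs (dnf (L v)) ρ')) t ρ
    · rw [if_neg (not_not.2 hJ), mul_zero]
      exact Finset.sum_nonneg fun t' _ => Finset.sum_nonneg fun σ _ => hnn t' σ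
    · obtain ⟨t', σ, ht', hE⟩ := MP.exists t ρ hJ
      rw [if_pos hJ, mul_one]
      have hM' : t' ≤ M := by
        have h3 := hE.le_card
        have h4 : (univ.filter fun i => ρ i = none).card ≤ M := by
          rw [hM, ← Finset.card_univ]
          exact Finset.card_filter_le _ _
        omega
      refine (hE.weight h0 h1).trans ?_
      have h5 := Finset.single_le_sum (fun σ _ => hnn t' σ) (Finset.mem_univ σ)
      rw [if_pos hE] at h5
      refine h5.trans ?_
      exact Finset.single_le_sum (f := fun t' => ∑ σ : Restr I,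
        if MP L ℓ t' ρ σ then (3 * q) ^ t' * ∏ i, wq q (σ i) else 0)
        (fun t' _ => Finset.sum_nonneg fun σ _ => hnn t' σ) (Finset.mem_Ioc.2 ⟨ht', hM'⟩)
  unfold Ex
  refine (Finset.sum_le_sum fun ρ _ => hstep ρ).trans ?_
  rw [Finset.sum_comm]
  refine le_trans ?_ (geom_tail (96 * k * q) (by positivity) h2 t M)
  refine Finset.sum_le_sum fun t' _ => ?_
  rw [Finset.sum_comm]
  have hin : ∀ σ : Restr I, ∑ ρ : Restr I,
      (if MP L ℓ t' ρ σ then (3 * q) ^ t' * ∏ i, wq q (σ i) else 0) ≤
      (96 * k * q) ^ t' * ∏ i, wq q (σ i) := by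
    intro σ
    rw [← Finset.sum_filter, Finset.sum_const, nsmul_eq_mul]
    have hc' := MP.count hL1 hι t' σ
    have hp : 0 ≤ (3 * q) ^ t' * ∏ i, wq q (σ i) := mul_nonneg (by positivity) (hw0 σ)
    calc _ ≤ (32 * k : ℝ) ^ t' * ((3 * q) ^ t' * ∏ i, wq q (σ i)) :=
          mul_le_mul_of_nonneg_right hc' hp
      _ = (96 * k * q) ^ t' * ∏ i, wq q (σ i) := by
          rw [← mul_assoc, ← mul_pow]
          congr 2
          ring
  refine (Finset.sum_le_sum fun σ _ => hin σ).trans ?_
  rw [← Finset.mul_sum]
  have hs : ∑ σ : Restr I, ∏ i, wq q (σ i) = 1 := by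
    have := Ex_const (I := I) (wq_sum q) (1 : ℝ)
    unfold Ex at this
    simpa using this
  rw [hs, mul_one]

end Pool.Agent.Y603.MS
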