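import Pool.Agent.Y603.MS.Level

/-!
# Two close points with close values
-/

set_option autoImplicit false

namespace Pool.Agent.Y603.MS

open Finset H568R2 Pool.Agent.TH163.AC3

variable {n : ℕ}

/-- The points of a subcube. -/
def InC (ρ : Restr (Fin n)) (x : Fin n → Bool) : Prop := ∀ i b, ρ i = some b → x i = b

/-- The number of free variables. -/
def fr (ρ : Restr (Fin n)) : ℕ := (univ.filter fun i => ρ i = none).card

/-- Flipping the bits in a set. -/
def flip (T : Finset (Fin n)) (x : Fin n → Bool) : Fin n → Bool :=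
  fun i => if i ∈ T then !x i else x i

lemma half_pow (ρ : Restr (Fin n)) :
    ∏ i, (if ρ i = none then (1 : ℝ) / 2 else 1) = (1 / 2) ^ fr ρ := by
  unfold fr
  rw [← Finset.prod_const, Finset.prod_filter]

lemma sum_prod_restr (φ : Fin n → Option Bool → ℝ) :
    ∑ ρ : Restr (Fin n), ∏ i, φ i (ρ i) = ∏ i, ∑ o, φ i o := by
  rw [Finset.prod_univ_sum, Fintype.piFinset_univ]

open Classical in
/-- The average density of a set in a random subcube. -/
lemma dens_avg {p : ℝ} (G : Finset (Fin n → Bool)) :
    ∑ ρ : Restr (Fin n), (∏ i, wq p (ρ i)) *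
      ((G.filter (InC ρ)).card * (1 / 2) ^ fr ρ) = G.card * (1 / 2 : ℝ) ^ n := by
  have h1 : ∀ ρ : Restr (Fin n), (∏ i, wq p (ρ i)) *
      ((G.filter (InC ρ)).card * (1 / 2) ^ fr ρ) =
      ∑ x ∈ G, ∏ i, (wq p (ρ i) * (if ρ i = none then (1 : ℝ) / 2 else 1) *
        (if ρ i = none ∨ ρ i = some (x i) then 1 else 0)) := by
    intro ρ
    rw [Finset.card_filter, Nat.cast_sum, Finset.sum_mul, Finset.mul_sum]
    refine Finset.sum_congr rfl fun x _ => ?_
    rw [Finset.prod_mul_distrib, Finset.prod_mul_distrib, half_pow]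
    by_cases hx : InC ρ x
    · rw [if_pos hx, Finset.prod_eq_one (f := fun i => if ρ i = none ∨ ρ i = some (x i) then
        (1 : ℝ) else 0)]
      · push_cast; ring
      · intro i _
        cases hρ : ρ i with
        | none => simp
        | some b => rw [hx i b hρ]; simp
    · rw [if_neg hx]
      have : ∃ i b, ρ i = some b ∧ x i ≠ b := by
        unfold InC at hx
        push Not at hx
        exact hx
      obtain ⟨i, b, hi, hb⟩ := this
      rw [Finset.prod_eq_zero (Finset.mem_univ i)
        (f := fun i => if ρ i = none ∨ ρ i = some (x i) then (1 : ℝ) else 0)]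
      · push_cast; ring
      · rw [if_neg]
        rw [hi]
        push Not
        exact ⟨by simp, fun h => hb (Option.some.inj h).symm⟩
  rw [Finset.sum_congr rfl fun ρ _ => h1 ρ, Finset.sum_comm]
  have h2 : ∀ x ∈ G, ∑ ρ : Restr (Fin n), ∏ i, (wq p (ρ i) *
      (if ρ i = none then (1 : ℝ) / 2 else 1) * (if ρ i = none ∨ ρ i = some (x i) then 1 else 0)) =
      (1 / 2 : ℝ) ^ n := by
    intro x _
    rw [sum_prod_restr (fun i o => wq p o * (if o = none then (1 : ℝ) / 2 else 1) *
      (if o = none ∨ o = some (x i) then 1 else 0))]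
    have h3 : ∀ i : Fin n, ∑ o : Option Bool, wq p o * (if o = none then (1 : ℝ) / 2 else 1) *
        (if o = none ∨ o = some (x i) then 1 else 0) = 1 / 2 := by
      intro i
      rw [Fintype.sum_option, Fintype.sum_bool]
      cases x i <;> simp [wq] <;> ring
    rw [Finset.prod_congr rfl fun i _ => h3 i, Finset.prod_const, Finset.card_univ,
      Fintype.card_fin]
  rw [Finset.sum_congr rfl h2, Finset.sum_const, nsmul_eq_mul]

open Classical in
/-- There are many free variables. -/
lemma few_free {p : ℝ} (h0 : 0 ≤ p) (h1 : p ≤ 1) (a : ℕ) :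
    Ex (wq p) (fun ρ : Restr (Fin n) => if fr ρ ≤ a then (1 : ℝ) else 0) ≤
      2 ^ a * (1 - p / 2) ^ n := by
  have h2 : Ex (wq p) (fun ρ : Restr (Fin n) => if fr ρ ≤ a then (1 : ℝ) else 0) ≤
      Ex (wq p) (fun ρ : Restr (Fin n) => 2 ^ a * (1 / 2) ^ fr ρ) := by
    refine Ex_mono (wq_nonneg h0 h1) fun ρ => ?_
    split_ifs with h
    · calc (1 : ℝ) = 2 ^ a * (1 / 2) ^ a := by rw [← mul_pow]; norm_num
        _ ≤ 2 ^ a * (1 / 2) ^ fr ρ := mul_le_mul_of_nonneg_left
            (pow_le_pow_of_le_one (by norm_num) (by norm_num) h) (by positivity)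
    · positivity
  refine h2.trans (le_of_eq ?_)
  rw [Ex_smul]
  congr 1
  unfold Ex
  have h3 : ∀ ρ : Restr (Fin n), (∏ i, wq p (ρ i)) * (1 / 2) ^ fr ρ =
      ∏ i, wq p (ρ i) * (if ρ i = none then (1 : ℝ) / 2 else 1) := by
    intro ρ
    rw [Finset.prod_mul_distrib, half_pow]
  rw [Finset.sum_congr rfl fun ρ _ => h3 ρ,
    sum_prod_restr (fun _ o => wq p o * (if o = none then (1 : ℝ) / 2 else 1))]
  have h4 : ∑ o : Option Bool, wq p o * (if o = none then (1 : ℝ) / 2 else 1) = 1 - p / 2 := by
    rw [Fintype.sum_option, Fintype.sum_bool]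
    simp [wq]
    ring
  rw [Finset.prod_congr rfl fun i _ => h4, Finset.prod_const, Finset.card_univ, Fintype.card_fin]

open Classical in
lemma card_inC (ρ : Restr (Fin n)) : (univ.filter (InC ρ)).card = 2 ^ fr ρ := by
  have h1 : (univ.filter (InC ρ)) = Fintype.piFinset fun i =>
      (match ρ i with | none => (univ : Finset Bool) | some b => {b}) := by
    ext x
    simp only [Finset.mem_filter, Finset.mem_univ, true_and, Fintype.mem_piFinset]
    refine forall_congr' fun i => ?_
    cases hρ : ρ i <;> simp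
  rw [h1, Fintype.card_piFinset]
  have h2 : ∀ i, (match ρ i with | none => (univ : Finset Bool) | some b => {b}).card =
      if ρ i = none then 2 else 1 := by
    intro i
    cases hρ : ρ i <;> simp
  rw [Finset.prod_congr rfl fun i _ => h2 i]
  unfold fr
  rw [← Finset.prod_const, Finset.prod_filter]

lemma two_pow_le_choose (R : ℕ) : 2 ^ R ≤ (2 * R).choose R := by
  induction R with
  | zero => simp
  | succ R ih =>
    have h := Nat.succ_mul_centralBinom_succ R
    unfold Nat.centralBinom at h
    have h2 : (R + 1) * 2 ^ (R + 1) ≤ (R + 1) * (2 * (R + 1)).choose (R + 1) := by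
      rw [h, pow_succ]
      calc (R + 1) * (2 ^ R * 2) = (2 * (R + 1)) * 2 ^ R := by ring
        _ ≤ (2 * (2 * R + 1)) * (2 * R).choose R := Nat.mul_le_mul (by omega) ih
    exact Nat.le_of_mul_le_mul_left h2 (Nat.succ_pos R)

lemma flip_inj {T T' : Finset (Fin n)} {x : Fin n → Bool} (h : flip T x = flip T' x) : T = T' := by
  ext i
  have := congrFun h i
  unfold flip at this
  by_cases h1 : i ∈ T <;> by_cases h2 : i ∈ T' <;> simp_all

open Classical in
/-- **Packing.** A large subset of a subcube contains two close points at which the values of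
functions with few reads are close. -/
theorem pack {κ : Type} [Fintype κ] (g : κ → (Fin n → Bool) → Bool) (ρ : Restr (Fin n))
    {ℓ T h R : ℕ} (hread : ∀ x, InC ρ x → ∃ (A : Finset (Fin n)) (Rd : κ → Finset (Fin n)),
      A.card ≤ T ∧ (∀ v, (Rd v).card ≤ ℓ) ∧
      ∀ v y, InC ρ y → (∀ i ∈ A, y i = x i) → (∀ i ∈ Rd v, y i = x i) → g v y = g v x)
    (hT : 4 * T ≤ fr ρ) (hh : 4 * (Fintype.card κ * ℓ) ≤ (h + 1) * fr ρ) (hR : 4 * R ≤ fr ρ)
    (G : Finset (Fin n → Bool)) (hG : ∀ x ∈ G, InC ρ x) (hcard : 2 ^ fr ρ < G.card * 2 ^ R) :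
    ∃ x ∈ G, ∃ y ∈ G, x ≠ y ∧ (univ.filter fun i => x i ≠ y i).card ≤ 2 * R ∧
      (univ.filter fun v => g v x ≠ g v y).card ≤ 2 * (R * h) := by
  choose! A Rd hA hRd hloc using hread
  -- the light variables at a point
  let Λ : (Fin n → Bool) → Finset (Fin n) := fun x =>
    univ.filter fun i => ρ i = none ∧ i ∉ A x ∧ (univ.filter fun v => i ∈ Rd x v).card ≤ h
  have hΛ : ∀ x ∈ G, 2 * R ≤ (Λ x).card := by
    intro x hx
    have hxC := hG x hx
    let H : Finset (Fin n) := univ.filter fun i => h < (univ.filter fun v => i ∈ Rd x v).card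
    have h1 : (univ.filter fun i => ρ i = none) ⊆ Λ x ∪ (A x ∪ H) := by
      intro i hi
      have hi' := (Finset.mem_filter.1 hi).2
      by_cases hAi : i ∈ A x
      · exact Finset.mem_union_right _ (Finset.mem_union_left _ hAi)
      · by_cases hHi : h < (univ.filter fun v => i ∈ Rd x v).card
        · exact Finset.mem_union_right _ (Finset.mem_union_right _
            (Finset.mem_filter.2 ⟨Finset.mem_univ _, hHi⟩))
        · exact Finset.mem_union_left _ (Finset.mem_filter.2 ⟨Finset.mem_univ _, hi', hAi,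
            not_lt.1 hHi⟩)
    have h2 : fr ρ ≤ (Λ x).card + ((A x).card + H.card) := by
      refine (Finset.card_le_card h1).trans ((Finset.card_union_le _ _).trans ?_)
      exact Nat.add_le_add_left (Finset.card_union_le _ _) _
    have h3 : (h + 1) * H.card ≤ Fintype.card κ * ℓ := by
      have h4 : ∑ i ∈ H, (h + 1) ≤ ∑ i ∈ H, (univ.filter fun v => i ∈ Rd x v).card :=
        Finset.sum_le_sum fun i hi => (Finset.mem_filter.1 hi).2
      rw [Finset.sum_const, smul_eq_mul] at h4
      have h5 : ∑ i ∈ H, (univ.filter fun v => i ∈ Rd x v).card ≤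
          ∑ i : Fin n, (univ.filter fun v => i ∈ Rd x v).card :=
        Finset.sum_le_sum_of_subset (Finset.subset_univ _)
      have h6 : ∑ i : Fin n, (univ.filter fun v => i ∈ Rd x v).card = ∑ v, (Rd x v).card := by
        simp only [Finset.card_filter]
        rw [Finset.sum_comm]
        refine Finset.sum_congr rfl fun v _ => ?_
        rw [← Finset.card_filter]
        congr 1
        ext i
        simp
      have h7 : ∑ v, (Rd x v).card ≤ Fintype.card κ * ℓ := by
        refine (Finset.sum_le_card_nsmul _ _ _ fun v _ => hRd x hxC v).trans ?_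
        rw [Finset.card_univ, smul_eq_mul]
      calc (h + 1) * H.card = H.card * (h + 1) := mul_comm _ _
        _ ≤ _ := h4
        _ ≤ _ := h5
        _ = _ := h6
        _ ≤ _ := h7
    have h8 : 4 * H.card ≤ fr ρ := by
      have h9 : (h + 1) * (4 * H.card) ≤ (h + 1) * fr ρ := by
        calc (h + 1) * (4 * H.card) = 4 * ((h + 1) * H.card) := by ring
          _ ≤ 4 * (Fintype.card κ * ℓ) := Nat.mul_le_mul_left _ h3
          _ ≤ _ := hh
      exact Nat.le_of_mul_le_mul_left h9 (Nat.succ_pos h)
    have h10 := hA x hxC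
    omega
  -- pigeonhole
  let D : Finset (Sigma fun _ : Fin n → Bool => Finset (Fin n)) :=
    G.sigma fun x => powersetCard R (Λ x)
  have hD : G.card * 2 ^ R ≤ D.card := by
    rw [Finset.card_sigma, ← smul_eq_mul, ← Finset.sum_const]
    refine Finset.sum_le_sum fun x hx => ?_
    rw [Finset.card_powersetCard]
    exact (two_pow_le_choose R).trans (Nat.choose_le_choose R (hΛ x hx))
  have hΛf : ∀ x, ∀ i ∈ Λ x, ρ i = none := fun x i hi => (Finset.mem_filter.1 hi).2.1
  have hflipC : ∀ x, InC ρ x → ∀ S, S ⊆ Λ x → InC ρ (flip S x) := by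
    intro x hx S hS i b hi
    unfold flip
    rw [if_neg]
    · exact hx i b hi
    · intro hiS
      have := hΛf x i (hS hiS)
      rw [this] at hi
      cases hi
  obtain ⟨⟨x, S⟩, hxS, ⟨y, S'⟩, hyS', hne, he⟩ :=
    Finset.exists_ne_map_eq_of_card_lt_of_maps_to (s := D) (t := univ.filter (InC ρ))
      (f := fun a => flip a.2 a.1) (by rw [card_inC]; omega) (by
        rintro ⟨x, S⟩ hxS
        obtain ⟨h1, h2⟩ := Finset.mem_sigma.1 hxS
        refine Finset.mem_coe.2 (Finset.mem_filter.2 ⟨Finset.mem_univ _, ?_⟩)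
        exact hflipC x (hG x h1) S (Finset.mem_powersetCard.1 h2).1)
  obtain ⟨hx, hS⟩ := Finset.mem_sigma.1 hxS
  obtain ⟨hy, hS'⟩ := Finset.mem_sigma.1 hyS'
  simp only at hx hS hy hS' he
  rw [Finset.mem_powersetCard] at hS hS'
  -- the effect of a flip
  have hout : ∀ z ∈ G, ∀ U, U ⊆ Λ z → U.card = R →
      (univ.filter fun v => g v z ≠ g v (flip U z)).card ≤ R * h := by
    intro z hz U hU hUR
    have h1 : (univ.filter fun v => g v z ≠ g v (flip U z)) ⊆
        U.biUnion fun i => univ.filter fun v => i ∈ Rd z v := by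
      intro v hv
      have hv' := (Finset.mem_filter.1 hv).2
      by_contra hcon
      apply hv'
      symm
      refine hloc z (hG z hz) v _ (hflipC z (hG z hz) U hU) ?_ ?_
      · intro i hi
        unfold flip
        rw [if_neg]
        intro hiU
        exact (Finset.mem_filter.1 (hU hiU)).2.2.1 hi
      · intro i hi
        unfold flip
        rw [if_neg]
        intro hiU
        exact hcon (Finset.mem_biUnion.2 ⟨i, hiU, Finset.mem_filter.2 ⟨Finset.mem_univ _, hi⟩⟩)
    refine (Finset.card_le_card h1).trans (Finset.card_biUnion_le.trans ?_)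
    refine (Finset.sum_le_card_nsmul _ _ h fun i hi => (Finset.mem_filter.1 (hU hi)).2.2.2).trans ?_
    rw [hUR, smul_eq_mul]
  refine ⟨x, hx, y, hy, ?_, ?_, ?_⟩
  · intro hxy
    subst hxy
    apply hne
    rw [flip_inj he]
  · have h1 : (univ.filter fun i => x i ≠ y i) ⊆ S ∪ S' := by
      intro i hi
      have hi' := (Finset.mem_filter.1 hi).2
      rw [Finset.mem_union]
      by_contra hcon
      push Not at hcon
      apply hi'
      have := congrFun he i
      unfold flip at this
      rwa [if_neg hcon.1, if_neg hcon.2] at this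
    refine (Finset.card_le_card h1).trans ((Finset.card_union_le _ _).trans ?_)
    omega
  · have h1 : (univ.filter fun v => g v x ≠ g v y) ⊆
        (univ.filter fun v => g v x ≠ g v (flip S x)) ∪
        (univ.filter fun v => g v y ≠ g v (flip S' y)) := by
      intro v hv
      have hv' := (Finset.mem_filter.1 hv).2
      rw [Finset.mem_union, Finset.mem_filter, Finset.mem_filter]
      by_contra hcon
      push Not at hcon
      apply hv'
      have h2 := hcon.1 (Finset.mem_univ _)
      have h3 := hcon.2 (Finset.mem_univ _)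
      rw [h2, h3, he]
    refine (Finset.card_le_card h1).trans ((Finset.card_union_le _ _).trans ?_)
    have h2 := hout x hx S hS.1 hS.2
    have h3 := hout y hy S' hS'.1 hS'.2
    omega

end Pool.Agent.Y603.MS
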